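import Pool.Agent.H310.Beckmann.Defs

open MeasureTheory Set
open scoped ContDiff InnerProductSpace ENNReal NNReal

namespace Pool.Agent.H310.Beckmann

/-- product test function -/
noncomputable def prodF (F G : ℝ → ℝ) (p : E 2) : ℝ := F (p 0) * G (p 1)

lemma contDiff_coord (i : Fin 2) : ContDiff ℝ ∞ (fun p : E 2 => p i) := by
  exact (EuclideanSpace.proj (𝕜 := ℝ) i).contDiff

lemma hasFDerivAt_coord (i : Fin 2) (p : E 2) :
    HasFDerivAt (fun p : E 2 => p i) (EuclideanSpace.proj (𝕜 := ℝ) i : E 2 →L[ℝ] ℝ) p :=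
  (EuclideanSpace.proj (𝕜 := ℝ) i : E 2 →L[ℝ] ℝ).hasFDerivAt

lemma contDiff_prodF {F G : ℝ → ℝ} (hF : ContDiff ℝ ∞ F) (hG : ContDiff ℝ ∞ G) :
    ContDiff ℝ ∞ (prodF F G) :=
  (hF.comp (contDiff_coord 0)).mul (hG.comp (contDiff_coord 1))

lemma hasFDerivAt_prodF {F G : ℝ → ℝ} {p : E 2} (hF : DifferentiableAt ℝ F (p 0))
    (hG : DifferentiableAt ℝ G (p 1)) :
    HasFDerivAt (prodF F G)
      (F (p 0) • ((deriv G (p 1)) • (EuclideanSpace.proj (𝕜 := ℝ) 1 : E 2 →L[ℝ] ℝ)) +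
        G (p 1) • ((deriv F (p 0)) • (EuclideanSpace.proj (𝕜 := ℝ) 0 : E 2 →L[ℝ] ℝ))) p := by
  have h1 := hF.hasDerivAt.comp_hasFDerivAt p (hasFDerivAt_coord 0 p)
  have h2 := hG.hasDerivAt.comp_hasFDerivAt p (hasFDerivAt_coord 1 p)
  exact h1.mul h2

lemma pd0_prodF {F G : ℝ → ℝ} (hF : Differentiable ℝ F) (hG : Differentiable ℝ G) :
    pd 0 (prodF F G) = prodF (deriv F) G := by
  funext p
  rw [pd, (hasFDerivAt_prodF (hF _) (hG _)).fderiv]
  simp [prodF, EuclideanSpace.proj]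
  ring

lemma pd1_prodF {F G : ℝ → ℝ} (hF : Differentiable ℝ F) (hG : Differentiable ℝ G) :
    pd 1 (prodF F G) = prodF F (deriv G) := by
  funext p
  rw [pd, (hasFDerivAt_prodF (hF _) (hG _)).fderiv]
  simp [prodF, EuclideanSpace.proj]

lemma pd_add {i : Fin 2} {f g : E 2 → ℝ} (hf : Differentiable ℝ f) (hg : Differentiable ℝ g) :
    pd i (fun x => f x + g x) = fun x => pd i f x + pd i g x := by
  funext x
  simp only [pd]
  rw [fderiv_fun_add (hf x) (hg x)]
  rfl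

lemma pd_const_mul {i : Fin 2} {f : E 2 → ℝ} (c : ℝ) (hf : Differentiable ℝ f) :
    pd i (fun x => c * f x) = fun x => c * pd i f x := by
  funext x
  simp only [pd]
  rw [fderiv_const_mul (hf x)]
  rfl

lemma contDiff_pd {i : Fin 2} {f : E 2 → ℝ} (hf : ContDiff ℝ ∞ f) : ContDiff ℝ ∞ (pd i f) := by
  have h : ContDiff ℝ ∞ (fderiv ℝ f) := hf.fderiv_right (m := ∞) (by simp)
  exact h.clm_apply contDiff_const

lemma smooth_deriv {F : ℝ → ℝ} (hF : ContDiff ℝ ∞ F) : ContDiff ℝ ∞ (deriv F) :=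
  (contDiff_infty_iff_deriv.1 hF).2

lemma pd_congr {i : Fin 2} {f g : E 2 → ℝ} {x : E 2} (h : f =ᶠ[nhds x] g) : pd i f x = pd i g x := by
  simp only [pd]
  rw [h.fderiv_eq]

lemma pd_eventually_congr {i : Fin 2} {f g : E 2 → ℝ} {x : E 2} (h : f =ᶠ[nhds x] g) :
    pd i f =ᶠ[nhds x] pd i g := by
  filter_upwards [h.eventuallyEq_nhds] with y hy
  exact pd_congr hy

lemma hess_congr {f g : E 2 → ℝ} {x : E 2} (h : f =ᶠ[nhds x] g) : hess f x = hess g x := by
  ext i j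
  simp only [hess, Matrix.of_apply]
  exact pd_congr (pd_eventually_congr h)

/-- primitive with base point `c` -/
noncomputable def prim (c : ℝ) (p : ℝ → ℝ) (x : ℝ) : ℝ := ∫ s in c..x, p s

lemma hasDerivAt_prim {p : ℝ → ℝ} (hp : Continuous p) (c x : ℝ) : HasDerivAt (prim c p) (p x) x :=
  intervalIntegral.integral_hasDerivAt_right (hp.intervalIntegrable _ _)
    (hp.stronglyMeasurableAtFilter _ _) hp.continuousAt

lemma deriv_prim {p : ℝ → ℝ} (hp : Continuous p) (c : ℝ) : deriv (prim c p) = p := by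
  funext x
  exact (hasDerivAt_prim hp c x).deriv

lemma contDiff_prim {p : ℝ → ℝ} (hp : ContDiff ℝ ∞ p) (c : ℝ) : ContDiff ℝ ∞ (prim c p) := by
  rw [contDiff_infty_iff_deriv]
  refine ⟨fun x => (hasDerivAt_prim hp.continuous c x).differentiableAt, ?_⟩
  rw [deriv_prim hp.continuous]
  exact hp

lemma prim_self (c : ℝ) (p : ℝ → ℝ) : prim c p c = 0 := by simp [prim]

/-- the Hessian pairing for a product test function -/
lemma hess_prodF {F G : ℝ → ℝ} (hF : ContDiff ℝ ∞ F) (hG : ContDiff ℝ ∞ G) (p : E 2) :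
    hess (prodF F G) p 0 0 = deriv (deriv F) (p 0) * G (p 1) ∧
    hess (prodF F G) p 0 1 = deriv F (p 0) * deriv G (p 1) ∧
    hess (prodF F G) p 1 0 = deriv F (p 0) * deriv G (p 1) ∧
    hess (prodF F G) p 1 1 = F (p 0) * deriv (deriv G) (p 1) := by
  have dF : Differentiable ℝ F := hF.differentiable (by simp)
  have dG : Differentiable ℝ G := hG.differentiable (by simp)
  have dF' : Differentiable ℝ (deriv F) := (smooth_deriv hF).differentiable (by simp)
  have dG' : Differentiable ℝ (deriv G) := (smooth_deriv hG).differentiable (by simp)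
  simp only [hess, Matrix.of_apply]
  rw [pd0_prodF dF dG, pd1_prodF dF dG, pd0_prodF dF' dG, pd1_prodF dF' dG, pd0_prodF dF dG',
    pd1_prodF dF dG']
  simp [prodF]

end Pool.Agent.H310.Beckmann
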