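import Pool.Agent.H310.Beckmann.Calc

open MeasureTheory Set
open scoped ContDiff InnerProductSpace ENNReal NNReal

namespace Pool.Agent.H310.Beckmann

/-- the symmetric gradient of the vector field `(φ, 0)` -/
noncomputable def PsiF (φ : E 2 → ℝ) (p : E 2) : Matrix (Fin 2) (Fin 2) ℝ :=
  !![pd 0 φ p, pd 1 φ p / 2; pd 1 φ p / 2, 0]

lemma coord_le_norm (v : E 2) (i : Fin 2) : |v i| ≤ ‖v‖ := by
  have := EuclideanSpace.norm_eq v
  rw [this]
  apply Real.abs_le_sqrt
  rw [Fin.sum_univ_two]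
  simp only [Real.norm_eq_abs, sq_abs]
  fin_cases i
  · simp; positivity
  · simp; positivity

lemma fderiv_apply_two (φ : E 2 → ℝ) (p e : E 2) :
    fderiv ℝ φ p e = e 0 * pd 0 φ p + e 1 * pd 1 φ p := by
  have h : e = e 0 • (EuclideanSpace.single 0 1 : E 2) + e 1 • (EuclideanSpace.single 1 1 : E 2) := by
    ext i
    fin_cases i <;> simp
  conv_lhs => rw [h]
  rw [map_add, map_smul, map_smul]
  simp [pd]

/-- change of variables on a segment -/
lemma integral_segment {z x : E 2} (hzx : x ≠ z) (f : E 2 → ℝ) :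
    ∫ ξ in segment ℝ z x, f ξ ∂(Measure.hausdorffMeasure 1 : Measure (E 2)) =
      ∫ s in (0:ℝ)..‖x - z‖, f (z + s • (‖x - z‖⁻¹ • (x - z))) := by
  have hL : 0 < ‖x - z‖ := norm_pos_iff.2 (sub_ne_zero.2 hzx)
  set L := ‖x - z‖ with hLdef
  set e : E 2 := L⁻¹ • (x - z) with hedef
  have he : ‖e‖ = 1 := by
    rw [hedef, norm_smul, norm_inv, Real.norm_eq_abs, abs_of_pos hL, ← hLdef,
      inv_mul_cancel₀ hL.ne']
  let γ : ℝ → E 2 := fun s => z + s • e
  have hγ : Isometry γ := by
    apply Isometry.of_dist_eq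
    intro a b
    simp only [γ, dist_add_left]
    rw [dist_eq_norm, ← sub_smul, norm_smul, he, mul_one, Real.dist_eq, Real.norm_eq_abs]
  have hemb : MeasurableEmbedding γ := hγ.isClosedEmbedding.measurableEmbedding
  have hmap := hγ.map_hausdorffMeasure (d := 1) (Or.inl zero_le_one)
  rw [hausdorffMeasure_real] at hmap
  have hseg : segment ℝ z x = γ '' Icc 0 L := by
    ext p
    rw [segment_eq_image']
    constructor
    · rintro ⟨t, ht, rfl⟩
      refine ⟨t * L, ⟨mul_nonneg ht.1 hL.le, by nlinarith [ht.2]⟩, ?_⟩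
      simp only [γ, hedef]
      rw [smul_smul, mul_assoc, mul_inv_cancel₀ hL.ne', mul_one]
    · rintro ⟨s, hs, rfl⟩
      refine ⟨s / L, ⟨div_nonneg hs.1 hL.le, (div_le_one hL).2 hs.2⟩, ?_⟩
      simp only [γ, hedef]
      rw [smul_smul, div_eq_mul_inv]
  have hsub : segment ℝ z x ⊆ range γ := by
    rw [hseg]
    exact image_subset_range _ _
  have hpre : γ ⁻¹' (segment ℝ z x) = Icc 0 L := by
    rw [hseg]
    exact preimage_image_eq _ hγ.injective
  have h1 : (Measure.hausdorffMeasure 1 : Measure (E 2)).restrict (segment ℝ z x) =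
      ((Measure.hausdorffMeasure 1 : Measure (E 2)).restrict (range γ)).restrict
        (segment ℝ z x) := by
    rw [Measure.restrict_restrict_of_subset hsub]
  rw [h1, ← hmap, hemb.setIntegral_map, hpre, intervalIntegral.integral_of_le hL.le,
    integral_Icc_eq_integral_Ioc]

lemma beam_PsiF {z x : E 2} {φ : E 2 → ℝ} (hφ : ContDiff ℝ ∞ φ) {M : ℝ}
    (hM : ∀ p, |φ p| ≤ M) : |beam z x (PsiF φ)| ≤ 2 * ‖x - z‖ * M := by
  by_cases hzx : x = z
  · subst hzx
    simp [beam]
  have hL : 0 < ‖x - z‖ := norm_pos_iff.2 (sub_ne_zero.2 hzx)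
  rw [beam, integral_segment hzx]
  set L := ‖x - z‖ with hLdef
  set e : E 2 := L⁻¹ • (x - z) with hedef
  have he : ‖e‖ = 1 := by
    rw [hedef, norm_smul, norm_inv, Real.norm_eq_abs, abs_of_pos hL, ← hLdef,
      inv_mul_cancel₀ hL.ne']
  have he0 : |e 0| ≤ 1 := (coord_le_norm e 0).trans he.le
  have hdiff : ∀ p, HasFDerivAt φ (fderiv ℝ φ p) p := fun p =>
    (hφ.differentiable (by simp) p).hasFDerivAt
  have hγ : ∀ s : ℝ, HasDerivAt (fun s : ℝ => z + s • e) e s := by
    intro s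
    have := ((hasDerivAt_id s).smul_const e).const_add z
    simpa using this
  have hcomp : ∀ s : ℝ, HasDerivAt (fun s : ℝ => φ (z + s • e)) (fderiv ℝ φ (z + s • e) e) s :=
    fun s => (hdiff _).comp_hasDerivAt s (hγ s)
  have hcont : Continuous fun s : ℝ => φ (z + s • e) := by
    have : Continuous fun s : ℝ => z + s • e := by fun_prop
    exact hφ.continuous.comp this
  have hcont' : Continuous fun s : ℝ => fderiv ℝ φ (z + s • e) e := by
    have h1 : Continuous fun s : ℝ => z + s • e := by fun_prop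
    have h2 : Continuous (fderiv ℝ φ) := hφ.continuous_fderiv (by simp)
    exact (h2.comp h1).clm_apply continuous_const
  have hint : (∫ s in (0:ℝ)..L, dist (z + s • e) z *
      ∑ i, ∑ j, (L⁻¹ * (x i - z i)) * (L⁻¹ * (x j - z j)) * PsiF φ (z + s • e) i j) =
      ∫ s in (0:ℝ)..L, ((e 0 * φ (z + s • e) + s * e 0 * fderiv ℝ φ (z + s • e) e) -
        e 0 * φ (z + s • e)) := by
    apply intervalIntegral.integral_congr
    intro s hs
    rw [Set.uIcc_of_le hL.le] at hs
    have e0 : L⁻¹ * (x 0 - z 0) = e 0 := by simp [hedef]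
    have e1 : L⁻¹ * (x 1 - z 1) = e 1 := by simp [hedef]
    have hd : dist (z + s • e) z = s := by
      rw [dist_eq_norm, add_sub_cancel_left, norm_smul, he, mul_one, Real.norm_eq_abs,
        abs_of_nonneg hs.1]
    simp only [Fin.sum_univ_two, e0, e1, hd, fderiv_apply_two, PsiF]
    simp
    ring
  rw [hint]
  have hF : ∀ s : ℝ, HasDerivAt (fun s : ℝ => s * e 0 * φ (z + s • e))
      (e 0 * φ (z + s • e) + s * e 0 * fderiv ℝ φ (z + s • e) e) s := by
    intro s
    have h1 : HasDerivAt (fun s : ℝ => s * e 0) (e 0) s := by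
      simpa using (hasDerivAt_id s).mul_const (e 0)
    exact h1.mul (hcomp s)
  have c1 : Continuous fun s : ℝ => e 0 * φ (z + s • e) := hcont.const_mul _
  have c2 : Continuous fun s : ℝ => e 0 * φ (z + s • e) + s * e 0 * fderiv ℝ φ (z + s • e) e :=
    c1.add ((continuous_id.mul continuous_const).mul hcont')
  rw [intervalIntegral.integral_sub (c2.intervalIntegrable _ _) (c1.intervalIntegrable _ _),
    intervalIntegral.integral_eq_sub_of_hasDerivAt (fun s _ => hF s) (c2.intervalIntegrable _ _)]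
  have hM0 : 0 ≤ M := (abs_nonneg _).trans (hM z)
  have b1 : |L * e 0 * φ (z + L • e) - 0 * e 0 * φ (z + (0:ℝ) • e)| ≤ L * M := by
    rw [zero_mul, zero_mul, sub_zero, abs_mul, abs_mul, abs_of_pos hL]
    have := mul_le_mul he0 (hM (z + L • e)) (abs_nonneg _) zero_le_one
    have := mul_le_mul_of_nonneg_left this hL.le
    linarith
  have b2 : |∫ s in (0:ℝ)..L, e 0 * φ (z + s • e)| ≤ L * M := by
    have := intervalIntegral.norm_integral_le_of_norm_le_const (a := 0) (b := L) (C := M)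
      (f := fun s => e 0 * φ (z + s • e)) (fun s _ => by
        rw [Real.norm_eq_abs, abs_mul]
        have := mul_le_mul he0 (hM (z + s • e)) (abs_nonneg _) zero_le_one
        linarith)
    rw [Real.norm_eq_abs, sub_zero, abs_of_pos hL] at this
    linarith
  calc _ ≤ |L * e 0 * φ (z + L • e) - 0 * e 0 * φ (z + (0:ℝ) • e)| +
        |∫ s in (0:ℝ)..L, e 0 * φ (z + s • e)| := abs_sub _ _
    _ ≤ 2 * L * M := by linarith

lemma star {Ω : Set (E 2)} (hΩ : IsOpen Ω) (hb : Bornology.IsBounded Ω) {σ : TensorMeasure 2}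
    (hrep : IsRepresentable Ω σ) :
    ∃ C : ℝ, 0 ≤ C ∧ ∀ φ : E 2 → ℝ, ContDiff ℝ ∞ φ →
      (∃ S : Set (E 2), IsClosed S ∧ S ⊆ Ω ∧ ∀ p ∉ S, φ p = 0) →
      ∀ M : ℝ, (∀ p, |φ p| ≤ M) → |σ.pair (PsiF φ)| ≤ C * M := by
  obtain ⟨π, τ, hπ, hπ0, hτ, hrep⟩ := hrep
  set D := Metric.diam (closure Ω) with hD
  have hDpos : 0 ≤ D := Metric.diam_nonneg
  refine ⟨4 * D * π.real univ, by positivity, ?_⟩
  rintro φ hφ ⟨S, hS, hSΩ, hS0⟩ M hM
  have hM0 : 0 ≤ M := (abs_nonneg _).trans (hM 0)
  have hz : ∀ p ∉ S, PsiF φ p = 0 := by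
    intro p hp
    have e : φ =ᶠ[nhds p] fun _ => 0 := by
      filter_upwards [hS.isOpen_compl.mem_nhds hp] with q hq
      exact hS0 q hq
    have e0 : ∀ i, pd i φ p = 0 := by
      intro i
      rw [pd_congr e]
      simp [pd]
    ext i j
    fin_cases i <;> fin_cases j <;> simp [PsiF, e0]
  have hcont : Continuous (PsiF φ) := by
    have c0 : Continuous (pd 0 φ) := (contDiff_pd hφ).continuous
    have c1 : Continuous (pd 1 φ) := (contDiff_pd hφ).continuous
    apply continuous_matrix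
    intro i j
    fin_cases i <;> fin_cases j
    · exact c0
    · exact c1.div_const 2
    · exact c1.div_const 2
    · exact continuous_const
  have hcomp : HasCompactSupport (PsiF φ) := by
    have hSc : IsCompact S := Metric.isCompact_of_isClosed_isBounded hS (hb.subset hSΩ)
    exact HasCompactSupport.intro hSc hz
  have hsymm : ∀ x, (PsiF φ x).IsSymm := by
    intro x
    ext i j
    fin_cases i <;> fin_cases j <;> simp [PsiF]
  rw [hrep _ hcont hcomp hsymm]
  have hτ0 : τ.pair (PsiF φ) = 0 := by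
    rw [TensorMeasure.pair]
    rw [← integral_zero (E 2) ℝ (μ := τ.base)]
    apply integral_congr_ae
    filter_upwards [hτ] with x hx
    by_cases hxf : x ∈ frontier Ω
    · have hxS : x ∉ S := by
        intro hxS
        have := hSΩ hxS
        rw [frontier, hΩ.interior_eq] at hxf
        exact hxf.2 this
      simp [hz x hxS]
    · simp [hx hxf]
  rw [hτ0, add_zero]
  have hae : ∀ᵐ p ∂π, p ∈ closure Ω ×ˢ closure Ω ×ˢ closure Ω := by
    rw [ae_iff]
    exact hπ0
  have hbd : ∀ᵐ p ∂π, ‖tri p.1 p.2.1 p.2.2 (PsiF φ)‖ ≤ 4 * D * M := by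
    filter_upwards [hae] with p hp
    obtain ⟨h1, h2, h3⟩ := hp
    have d1 : ‖p.1 - p.2.2‖ ≤ D := by
      rw [← dist_eq_norm]
      exact Metric.dist_le_diam_of_mem hb.closure h1 h3
    have d2 : ‖p.2.1 - p.2.2‖ ≤ D := by
      rw [← dist_eq_norm]
      exact Metric.dist_le_diam_of_mem hb.closure h2 h3
    have b1 := beam_PsiF (z := p.2.2) (x := p.1) hφ hM
    have b2 := beam_PsiF (z := p.2.2) (x := p.2.1) hφ hM
    rw [Real.norm_eq_abs, tri]
    have m1 : ‖p.1 - p.2.2‖ * M ≤ D * M := mul_le_mul_of_nonneg_right d1 hM0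
    have m2 : ‖p.2.1 - p.2.2‖ * M ≤ D * M := mul_le_mul_of_nonneg_right d2 hM0
    have := abs_sub (beam p.2.2 p.1 (PsiF φ)) (beam p.2.2 p.2.1 (PsiF φ))
    linarith
  have := norm_integral_le_of_norm_le_const hbd
  rw [Real.norm_eq_abs] at this
  linarith

end Pool.Agent.H310.Beckmann
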