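import Pool.Agent.H310.Beckmann.Lip
import Pool.Agent.H310.Beckmann.Seg

open MeasureTheory Set Metric
open scoped ContDiff InnerProductSpace ENNReal NNReal

namespace Pool.Agent.H310.Beckmann

open Classical in
/-- density of the candidate -/
noncomputable def S0 (p : E 2) : Matrix (Fin 2) (Fin 2) ℝ :=
  if p 1 = 0 ∧ p 0 < 0 then !![max 0 (1 + p 0), 0; 0, 0]
  else if p 1 = -3 ∧ 3 < p 0 then !![max 0 (4 - p 0), 0; 0, 0]
  else if p 0 = 0 ∧ 0 < p 1 then !![0, 0; 0, -max 0 (1 - p 1)]
  else if p 0 = 3 ∧ p 1 < -3 then !![0, 0; 0, -max 0 (4 + p 1)]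
  else !![1, 0; 0, -1]

lemma S0_facts (p : E 2) : (S0 p).IsSymm ∧ S0 p 0 1 = 0 ∧ S0 p 1 0 = 0 ∧ 0 ≤ S0 p 0 0 ∧
    S0 p 0 0 ≤ 1 ∧ S0 p 1 1 ≤ 0 ∧ -1 ≤ S0 p 1 1 := by
  have key : S0 p 0 1 = 0 ∧ S0 p 1 0 = 0 ∧ 0 ≤ S0 p 0 0 ∧
    S0 p 0 0 ≤ 1 ∧ S0 p 1 1 ≤ 0 ∧ -1 ≤ S0 p 1 1 := by
    unfold S0
    split_ifs with h1 h2 h3 h4
    · simp; linarith [h1.2]
    · simp; linarith [h2.2]
    · simp; linarith [h3.2]
    · simp; linarith [h4.2]
    · simp
  refine ⟨?_, key⟩
  ext i j
  fin_cases i <;> fin_cases j <;> simp [key.1, key.2.1]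

lemma measurable_S0 (i j : Fin 2) : Measurable fun p => S0 p i j := by
  have m0 : Measurable fun p : E 2 => p 0 := cont0.measurable
  have m1 : Measurable fun p : E 2 => p 1 := cont1.measurable
  have s1 : MeasurableSet {p : E 2 | p 1 = 0 ∧ p 0 < 0} :=
    (measurableSet_eq_fun m1 measurable_const).inter (measurableSet_lt m0 measurable_const)
  have s2 : MeasurableSet {p : E 2 | p 1 = -3 ∧ 3 < p 0} :=
    (measurableSet_eq_fun m1 measurable_const).inter (measurableSet_lt measurable_const m0)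
  have s3 : MeasurableSet {p : E 2 | p 0 = 0 ∧ 0 < p 1} :=
    (measurableSet_eq_fun m0 measurable_const).inter (measurableSet_lt measurable_const m1)
  have s4 : MeasurableSet {p : E 2 | p 0 = 3 ∧ p 1 < -3} :=
    (measurableSet_eq_fun m0 measurable_const).inter (measurableSet_lt m1 measurable_const)
  have e : (fun p => S0 p i j) = fun p =>
      if p 1 = 0 ∧ p 0 < 0 then !![max 0 (1 + p 0), 0; 0, 0] i j
      else if p 1 = -3 ∧ 3 < p 0 then !![max 0 (4 - p 0), 0; 0, 0] i j
      else if p 0 = 0 ∧ 0 < p 1 then !![0, 0; 0, -max 0 (1 - p 1)] i j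
      else if p 0 = 3 ∧ p 1 < -3 then !![0, 0; 0, -max 0 (4 + p 1)] i j
      else (!![1, 0; 0, -1] : Matrix (Fin 2) (Fin 2) ℝ) i j := by
    funext p
    unfold S0
    split_ifs <;> rfl
  rw [e]
  refine Measurable.ite s1 ?_ (Measurable.ite s2 ?_ (Measurable.ite s3 ?_ (Measurable.ite s4 ?_
    measurable_const)))
  · fin_cases i <;> fin_cases j <;> (simp; try fun_prop)
  · fin_cases i <;> fin_cases j <;> (simp; try fun_prop)
  · fin_cases i <;> fin_cases j <;> (simp; try fun_prop)
  · fin_cases i <;> fin_cases j <;> (simp; try fun_prop)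

/-- the straight parametrisations -/
noncomputable def line (a α b β : ℝ) (t : ℝ) : E 2 := pt (a + α * t) (b + β * t)

lemma hasDerivAt_line (a α b β t : ℝ) : HasDerivAt (line a α b β) (pt α β) t := by
  have h0 : ∀ t, line a α b β t = pt a b + t • pt α β := by
    intro t
    ext i
    fin_cases i
    · simp [line]; ring
    · simp [line]; ring
  have : HasDerivAt (fun t : ℝ => pt a b + t • pt α β) (pt α β) t := by
    simpa using ((hasDerivAt_id t).smul_const (pt α β)).const_add (pt a b)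
  exact this.congr_of_eventuallyEq (Filter.Eventually.of_forall h0)

lemma continuous_line (a α b β : ℝ) : Continuous (line a α b β) :=
  continuous_iff_continuousAt.2 fun t => (hasDerivAt_line a α b β t).continuousAt

/-- the piece of the base measure carried by a line -/
noncomputable def piece (a α b β s t : ℝ) : Measure (E 2) :=
  Measure.map (line a α b β) (volume.restrict (Ioo s t))

instance (a α b β s t : ℝ) : IsFiniteMeasure (piece a α b β s t) := by
  unfold piece
  infer_instance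

lemma integral_piece {a α b β s t : ℝ} (hst : s ≤ t) {f : E 2 → ℝ} (hf : Measurable f) :
    ∫ p, f p ∂(piece a α b β s t) = ∫ u in s..t, f (line a α b β u) := by
  unfold piece
  rw [integral_map (continuous_line a α b β).aemeasurable hf.aestronglyMeasurable,
    intervalIntegral.integral_of_le hst, integral_Ioc_eq_integral_Ioo]

/-- base measure of the candidate -/
noncomputable def base0 : Measure (E 2) :=
  piece 0 1 0 0 (-1) 0 + piece 0 1 (-3) 0 3 4 + piece 0 0 0 1 0 1 + piece 3 0 0 1 (-4) (-3) +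
    piece 0 1 0 (-1) 0 3

instance : IsFiniteMeasure base0 := by
  unfold base0
  infer_instance

/-- the candidate -/
noncomputable def sig0 : TensorMeasure 2 where
  base := base0
  finite := inferInstance
  dens := S0
  symm := fun p => (S0_facts p).1
  integrable := fun i j => by
    refine Integrable.of_bound (measurable_S0 i j).aestronglyMeasurable 1
      (Filter.Eventually.of_forall fun p => ?_)
    obtain ⟨-, h1, h2, h3, h4, h5, h6⟩ := S0_facts p
    rw [Real.norm_eq_abs, abs_le]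
    fin_cases i <;> fin_cases j
    · exact ⟨by simp; linarith, by simpa using h4⟩
    · simp [h1]
    · simp [h2]
    · exact ⟨by simpa using h6, by simp; linarith⟩

lemma integral_base0 {f : E 2 → ℝ} (hf : Measurable f) (hi : Integrable f base0) :
    ∫ p, f p ∂base0 = (∫ u in (-1:ℝ)..0, f (line 0 1 0 0 u)) + (∫ u in (3:ℝ)..4, f (line 0 1 (-3) 0 u))
      + (∫ u in (0:ℝ)..1, f (line 0 0 0 1 u)) + (∫ u in (-4:ℝ)..(-3), f (line 3 0 0 1 u)) +
      (∫ u in (0:ℝ)..3, f (line 0 1 0 (-1) u)) := by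
  unfold base0 at hi ⊢
  have i4 := hi.left_of_add_measure
  have i3 := i4.left_of_add_measure
  have i2 := i3.left_of_add_measure
  rw [integral_add_measure i4 hi.right_of_add_measure,
    integral_add_measure i3 i4.right_of_add_measure,
    integral_add_measure i2 i3.right_of_add_measure,
    integral_add_measure i2.left_of_add_measure i2.right_of_add_measure,
    integral_piece (by norm_num) hf, integral_piece (by norm_num) hf, integral_piece (by norm_num) hf,
    integral_piece (by norm_num) hf, integral_piece (by norm_num) hf]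

lemma hasDerivAt_along {ψ : E 2 → ℝ} (hψ : ContDiff ℝ ∞ ψ) (a α b β t : ℝ) :
    HasDerivAt (fun t => ψ (line a α b β t))
      (α * pd 0 ψ (line a α b β t) + β * pd 1 ψ (line a α b β t)) t := by
  have h1 := ((hψ.differentiable (by simp) (line a α b β t)).hasFDerivAt).comp_hasDerivAt t
    (hasDerivAt_line a α b β t)
  rw [fderiv_apply_two] at h1
  simp only [pt_zero, pt_one] at h1
  exact h1

lemma pd_comm {ψ : E 2 → ℝ} (hψ : ContDiff ℝ ∞ ψ) (p : E 2) : pd 1 (pd 0 ψ) p = pd 0 (pd 1 ψ) p := by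
  have hd : ContDiff ℝ ∞ (fderiv ℝ ψ) := hψ.fderiv_right (m := ∞) (by simp)
  have e : ∀ i j, pd i (pd j ψ) p = fderiv ℝ (fderiv ℝ ψ) p (EuclideanSpace.single i 1)
      (EuclideanSpace.single j 1) := by
    intro i j
    have h1 : HasFDerivAt (fderiv ℝ ψ) (fderiv ℝ (fderiv ℝ ψ) p) p :=
      (hd.differentiable (by simp) p).hasFDerivAt
    have h2 := h1.clm_apply (hasFDerivAt_const (EuclideanSpace.single j (1:ℝ) : E 2) p)
    have h3 : HasFDerivAt (pd j ψ) _ p := h2
    rw [pd, h3.fderiv]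
    simp
  rw [e, e]
  have hs : IsSymmSndFDerivAt ℝ ψ p := (hψ.contDiffAt).isSymmSndFDerivAt (by
    rw [minSmoothness_of_isRCLikeNormedField]
    exact WithTop.coe_le_coe.2 (le_top : (2 : ℕ∞) ≤ ⊤))
  exact hs _ _

/-- the pairing of the candidate with a Hessian -/
lemma pair_sig0 {φ : E 2 → ℝ} (hφ : ContDiff ℝ ∞ φ)
    (hi : Integrable (fun p => hess φ p 0 0 * S0 p 0 0 + hess φ p 1 1 * S0 p 1 1) base0) :
    sig0.pair (hess φ) = φ (pt (-1) 0) + φ (pt 4 (-3)) - φ (pt 0 1) - φ (pt 3 (-4)) := by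
  have c00 : Continuous fun p => hess φ p 0 0 := (contDiff_pd (contDiff_pd hφ)).continuous
  have c11 : Continuous fun p => hess φ p 1 1 := (contDiff_pd (contDiff_pd hφ)).continuous
  have hmeas : Measurable (fun p => hess φ p 0 0 * S0 p 0 0 + hess φ p 1 1 * S0 p 1 1) :=
    (c00.measurable.mul (measurable_S0 0 0)).add (c11.measurable.mul (measurable_S0 1 1))
  have e : sig0.pair (hess φ) =
      ∫ p, (hess φ p 0 0 * S0 p 0 0 + hess φ p 1 1 * S0 p 1 1) ∂base0 := by
    unfold TensorMeasure.pair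
    show ∫ p, ∑ i, ∑ j, hess φ p i j * S0 p i j ∂base0 = _
    congr 1
    funext p
    obtain ⟨-, h1, h2, -⟩ := S0_facts p
    simp only [Fin.sum_univ_two, h1, h2]
    ring
  rw [e, integral_base0 hmeas hi]
  have s0 : ContDiff ℝ ∞ (pd 0 φ) := contDiff_pd hφ
  have s1 : ContDiff ℝ ∞ (pd 1 φ) := contDiff_pd hφ
  have cl : ∀ (ψ : E 2 → ℝ) (a α b β : ℝ), ContDiff ℝ ∞ ψ → Continuous fun t => ψ (line a α b β t) :=
    fun ψ a α b β h => h.continuous.comp (continuous_line a α b β)
  have s00 : ContDiff ℝ ∞ (pd 0 (pd 0 φ)) := contDiff_pd s0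
  have s11 : ContDiff ℝ ∞ (pd 1 (pd 1 φ)) := contDiff_pd s1
  -- first beam
  have I1 : ∫ u in (-1:ℝ)..0, (hess φ (line 0 1 0 0 u) 0 0 * S0 (line 0 1 0 0 u) 0 0 +
      hess φ (line 0 1 0 0 u) 1 1 * S0 (line 0 1 0 0 u) 1 1) =
      pd 0 φ (pt 0 0) - φ (pt 0 0) + φ (pt (-1) 0) := by
    have e1 : ∫ u in (-1:ℝ)..0, (hess φ (line 0 1 0 0 u) 0 0 * S0 (line 0 1 0 0 u) 0 0 +
        hess φ (line 0 1 0 0 u) 1 1 * S0 (line 0 1 0 0 u) 1 1) =
        ∫ u in (-1:ℝ)..0, (1 + u) * pd 0 (pd 0 φ) (line 0 1 0 0 u) := by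
      rw [intervalIntegral.integral_of_le (by norm_num), intervalIntegral.integral_of_le (by norm_num),
        integral_Ioc_eq_integral_Ioo, integral_Ioc_eq_integral_Ioo]
      apply setIntegral_congr_fun measurableSet_Ioo
      intro u hu
      have hS : S0 (line 0 1 0 0 u) = !![max 0 (1 + u), 0; 0, 0] := by
        unfold S0
        rw [if_pos (by simp [line, hu.2])]
        simp [line]
      simp only [hS, hess, Matrix.of_apply]
      simp
      rw [max_eq_right (by linarith [hu.1])]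
      ring
    rw [e1]
    have hF : ∀ u : ℝ, HasDerivAt (fun u => (1 + u) * pd 0 φ (line 0 1 0 0 u) - φ (line 0 1 0 0 u))
        ((1 + u) * pd 0 (pd 0 φ) (line 0 1 0 0 u)) u := by
      intro u
      have a1 := hasDerivAt_along s0 0 1 0 0 u
      have a2 := hasDerivAt_along hφ 0 1 0 0 u
      have a3 : HasDerivAt (fun u : ℝ => 1 + u) 1 u := by
        simpa using (hasDerivAt_id u).const_add 1
      have := (a3.mul a1).sub a2
      refine this.congr_deriv ?_
      ring
    rw [intervalIntegral.integral_eq_sub_of_hasDerivAt (fun u _ => hF u)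
      (((continuous_const.add continuous_id).mul (cl _ _ _ _ _ s00)).intervalIntegrable _ _)]
    have p1 : line 0 1 0 0 0 = pt 0 0 := by simp [line]
    have p2 : line 0 1 0 0 (-1) = pt (-1) 0 := by simp [line]
    rw [p1, p2]
    ring
  have I2 : ∫ u in (3:ℝ)..4, (hess φ (line 0 1 (-3) 0 u) 0 0 * S0 (line 0 1 (-3) 0 u) 0 0 +
      hess φ (line 0 1 (-3) 0 u) 1 1 * S0 (line 0 1 (-3) 0 u) 1 1) =
      φ (pt 4 (-3)) - pd 0 φ (pt 3 (-3)) - φ (pt 3 (-3)) := by
    have e1 : ∫ u in (3:ℝ)..4, (hess φ (line 0 1 (-3) 0 u) 0 0 * S0 (line 0 1 (-3) 0 u) 0 0 +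
        hess φ (line 0 1 (-3) 0 u) 1 1 * S0 (line 0 1 (-3) 0 u) 1 1) =
        ∫ u in (3:ℝ)..4, (4 - u) * pd 0 (pd 0 φ) (line 0 1 (-3) 0 u) := by
      rw [intervalIntegral.integral_of_le (by norm_num), intervalIntegral.integral_of_le (by norm_num),
        integral_Ioc_eq_integral_Ioo, integral_Ioc_eq_integral_Ioo]
      apply setIntegral_congr_fun measurableSet_Ioo
      intro u hu
      have hS : S0 (line 0 1 (-3) 0 u) = !![max 0 (4 - u), 0; 0, 0] := by
        unfold S0
        rw [if_neg (by simp [line]), if_pos (by simp [line, hu.1])]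
        simp [line]
      simp only [hS, hess, Matrix.of_apply]
      simp
      rw [max_eq_right (by linarith [hu.2])]
      ring
    rw [e1]
    have hF : ∀ u : ℝ, HasDerivAt
        (fun u => (4 - u) * pd 0 φ (line 0 1 (-3) 0 u) + φ (line 0 1 (-3) 0 u))
        ((4 - u) * pd 0 (pd 0 φ) (line 0 1 (-3) 0 u)) u := by
      intro u
      have a1 := hasDerivAt_along s0 0 1 (-3) 0 u
      have a2 := hasDerivAt_along hφ 0 1 (-3) 0 u
      have a3 : HasDerivAt (fun u : ℝ => 4 - u) (-1) u := by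
        simpa using (hasDerivAt_id u).const_sub 4
      have := (a3.mul a1).add a2
      refine this.congr_deriv ?_
      ring
    rw [intervalIntegral.integral_eq_sub_of_hasDerivAt (fun u _ => hF u)
      (((continuous_const.sub continuous_id).mul (cl _ _ _ _ _ s00)).intervalIntegrable _ _)]
    have p1 : line 0 1 (-3) 0 4 = pt 4 (-3) := by simp [line]
    have p2 : line 0 1 (-3) 0 3 = pt 3 (-3) := by simp [line]
    rw [p1, p2]
    ring
  have I3 : ∫ u in (0:ℝ)..1, (hess φ (line 0 0 0 1 u) 0 0 * S0 (line 0 0 0 1 u) 0 0 +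
      hess φ (line 0 0 0 1 u) 1 1 * S0 (line 0 0 0 1 u) 1 1) =
      -(φ (pt 0 1) - pd 1 φ (pt 0 0) - φ (pt 0 0)) := by
    have e1 : ∫ u in (0:ℝ)..1, (hess φ (line 0 0 0 1 u) 0 0 * S0 (line 0 0 0 1 u) 0 0 +
        hess φ (line 0 0 0 1 u) 1 1 * S0 (line 0 0 0 1 u) 1 1) =
        ∫ u in (0:ℝ)..1, -((1 - u) * pd 1 (pd 1 φ) (line 0 0 0 1 u)) := by
      rw [intervalIntegral.integral_of_le (by norm_num), intervalIntegral.integral_of_le (by norm_num),
        integral_Ioc_eq_integral_Ioo, integral_Ioc_eq_integral_Ioo]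
      apply setIntegral_congr_fun measurableSet_Ioo
      intro u hu
      have hS : S0 (line 0 0 0 1 u) = !![0, 0; 0, -max 0 (1 - u)] := by
        unfold S0
        rw [if_neg (by simp [line]), if_neg (by simp [line]), if_pos (by simp [line, hu.1])]
        simp [line]
      simp only [hS, hess, Matrix.of_apply]
      simp
      rw [max_eq_right (by linarith [hu.2])]
      ring
    rw [e1]
    have hF : ∀ u : ℝ, HasDerivAt
        (fun u => -((1 - u) * pd 1 φ (line 0 0 0 1 u) + φ (line 0 0 0 1 u)))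
        (-((1 - u) * pd 1 (pd 1 φ) (line 0 0 0 1 u))) u := by
      intro u
      have a1 := hasDerivAt_along s1 0 0 0 1 u
      have a2 := hasDerivAt_along hφ 0 0 0 1 u
      have a3 : HasDerivAt (fun u : ℝ => 1 - u) (-1) u := by
        simpa using (hasDerivAt_id u).const_sub 1
      have := ((a3.mul a1).add a2).neg
      refine this.congr_deriv ?_
      ring
    rw [intervalIntegral.integral_eq_sub_of_hasDerivAt (fun u _ => hF u)
      ((((continuous_const.sub continuous_id).mul (cl _ _ _ _ _ s11)).neg).intervalIntegrable _ _)]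
    have p1 : line 0 0 0 1 1 = pt 0 1 := by simp [line]
    have p2 : line 0 0 0 1 0 = pt 0 0 := by simp [line]
    rw [p1, p2]
    ring
  have I4 : ∫ u in (-4:ℝ)..(-3), (hess φ (line 3 0 0 1 u) 0 0 * S0 (line 3 0 0 1 u) 0 0 +
      hess φ (line 3 0 0 1 u) 1 1 * S0 (line 3 0 0 1 u) 1 1) =
      -(pd 1 φ (pt 3 (-3)) - φ (pt 3 (-3)) + φ (pt 3 (-4))) := by
    have e1 : ∫ u in (-4:ℝ)..(-3), (hess φ (line 3 0 0 1 u) 0 0 * S0 (line 3 0 0 1 u) 0 0 +
        hess φ (line 3 0 0 1 u) 1 1 * S0 (line 3 0 0 1 u) 1 1) =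
        ∫ u in (-4:ℝ)..(-3), -((4 + u) * pd 1 (pd 1 φ) (line 3 0 0 1 u)) := by
      rw [intervalIntegral.integral_of_le (by norm_num), intervalIntegral.integral_of_le (by norm_num),
        integral_Ioc_eq_integral_Ioo, integral_Ioc_eq_integral_Ioo]
      apply setIntegral_congr_fun measurableSet_Ioo
      intro u hu
      have hS : S0 (line 3 0 0 1 u) = !![0, 0; 0, -max 0 (4 + u)] := by
        unfold S0
        rw [if_neg (by simp [line]), if_neg (by simp [line]), if_neg (by simp [line]),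
          if_pos (by simp [line, hu.2])]
        simp [line]
      simp only [hS, hess, Matrix.of_apply]
      simp
      rw [max_eq_right (by linarith [hu.1])]
      ring
    rw [e1]
    have hF : ∀ u : ℝ, HasDerivAt
        (fun u => -((4 + u) * pd 1 φ (line 3 0 0 1 u) - φ (line 3 0 0 1 u)))
        (-((4 + u) * pd 1 (pd 1 φ) (line 3 0 0 1 u))) u := by
      intro u
      have a1 := hasDerivAt_along s1 3 0 0 1 u
      have a2 := hasDerivAt_along hφ 3 0 0 1 u
      have a3 : HasDerivAt (fun u : ℝ => 4 + u) 1 u := by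
        simpa using (hasDerivAt_id u).const_add 4
      have := ((a3.mul a1).sub a2).neg
      refine this.congr_deriv ?_
      ring
    rw [intervalIntegral.integral_eq_sub_of_hasDerivAt (fun u _ => hF u)
      ((((continuous_const.add continuous_id).mul (cl _ _ _ _ _ s11)).neg).intervalIntegrable _ _)]
    have p1 : line 3 0 0 1 (-3) = pt 3 (-3) := by simp [line]
    have p2 : line 3 0 0 1 (-4) = pt 3 (-4) := by simp [line]
    rw [p1, p2]
    ring
  have I5 : ∫ u in (0:ℝ)..3, (hess φ (line 0 1 0 (-1) u) 0 0 * S0 (line 0 1 0 (-1) u) 0 0 +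
      hess φ (line 0 1 0 (-1) u) 1 1 * S0 (line 0 1 0 (-1) u) 1 1) =
      (pd 0 φ (pt 3 (-3)) + pd 1 φ (pt 3 (-3))) - (pd 0 φ (pt 0 0) + pd 1 φ (pt 0 0)) := by
    have e1 : ∫ u in (0:ℝ)..3, (hess φ (line 0 1 0 (-1) u) 0 0 * S0 (line 0 1 0 (-1) u) 0 0 +
        hess φ (line 0 1 0 (-1) u) 1 1 * S0 (line 0 1 0 (-1) u) 1 1) =
        ∫ u in (0:ℝ)..3, (pd 0 (pd 0 φ) (line 0 1 0 (-1) u) - pd 1 (pd 1 φ) (line 0 1 0 (-1) u)) := by
      rw [intervalIntegral.integral_of_le (by norm_num), intervalIntegral.integral_of_le (by norm_num),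
        integral_Ioc_eq_integral_Ioo, integral_Ioc_eq_integral_Ioo]
      apply setIntegral_congr_fun measurableSet_Ioo
      intro u hu
      have hS : S0 (line 0 1 0 (-1) u) = !![1, 0; 0, -1] := by
        unfold S0
        rw [if_neg (by simp [line]; intro h; linarith [hu.1]),
          if_neg (by simp [line]; intro h; linarith [hu.2]),
          if_neg (by simp [line]; intro h; linarith [hu.1]),
          if_neg (by simp [line]; intro h; linarith [hu.2])]
      simp only [hS, hess, Matrix.of_apply]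
      simp
      ring
    rw [e1]
    have hF : ∀ u : ℝ, HasDerivAt
        (fun u => pd 0 φ (line 0 1 0 (-1) u) + pd 1 φ (line 0 1 0 (-1) u))
        (pd 0 (pd 0 φ) (line 0 1 0 (-1) u) - pd 1 (pd 1 φ) (line 0 1 0 (-1) u)) u := by
      intro u
      have a1 := hasDerivAt_along s0 0 1 0 (-1) u
      have a2 := hasDerivAt_along s1 0 1 0 (-1) u
      have := a1.add a2
      refine this.congr_deriv ?_
      rw [pd_comm hφ]
      ring
    rw [intervalIntegral.integral_eq_sub_of_hasDerivAt (fun u _ => hF u)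
      ((((cl _ _ _ _ _ s00)).sub (cl _ _ _ _ _ s11)).intervalIntegrable _ _)]
    have p1 : line 0 1 0 (-1) 3 = pt 3 (-3) := by simp [line]
    have p2 : line 0 1 0 (-1) 0 = pt 0 0 := by simp [line]
    rw [p1, p2]
  rw [I1, I2, I3, I4, I5]
  ring

end Pool.Agent.H310.Beckmann
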