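import Mathlib

/-!
Definitions for the confined second-order Beckmann problem.
-/

open MeasureTheory Set
open scoped ContDiff InnerProductSpace ENNReal NNReal

namespace Pool.Agent.H310.Beckmann

/-- Euclidean space of dimension `d`. -/
abbrev E (d : ℕ) := EuclideanSpace ℝ (Fin d)

/-- The nuclear norm of a real symmetric matrix: the sum of the absolute values of its
eigenvalues (junk value `0` if the matrix is not symmetric). -/
noncomputable def nuc {d : ℕ} (S : Matrix (Fin d) (Fin d) ℝ) : ℝ :=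
  if h : S.IsHermitian then ∑ i, |h.eigenvalues i| else 0

/-- A tensor measure of finite total variation with values in the symmetric matrices, given by
its polar-type representation `σ = dens · base`: `base` is a finite positive Borel measure and
`dens` an integrable density with symmetric values. -/
structure TensorMeasure (d : ℕ) where
  /-- the reference measure -/
  base : Measure (E d)
  /-- the reference measure is finite -/
  finite : IsFiniteMeasure base
  /-- the density -/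
  dens : E d → Matrix (Fin d) (Fin d) ℝ
  /-- the density has symmetric values -/
  symm : ∀ x, (dens x).IsSymm
  /-- the density is integrable -/
  integrable : ∀ i j, Integrable (fun x => dens x i j) base

/-- The duality pairing `⟨σ, Ψ⟩ = ∫ Ψ : dσ`. -/
noncomputable def TensorMeasure.pair {d : ℕ} (σ : TensorMeasure d)
    (Ψ : E d → Matrix (Fin d) (Fin d) ℝ) : ℝ :=
  ∫ x, ∑ i, ∑ j, Ψ x i j * σ.dens x i j ∂σ.base

/-- The cost `∫ ϱ⁰(σ)`. -/
noncomputable def TensorMeasure.cost {d : ℕ} (σ : TensorMeasure d) : ℝ≥0∞ :=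
  ∫⁻ x, ENNReal.ofReal (nuc (σ.dens x)) ∂σ.base

/-- `|σ|` vanishes off `K`. -/
def TensorMeasure.ConcentratedOn {d : ℕ} (σ : TensorMeasure d) (K : Set (E d)) : Prop :=
  ∀ᵐ x ∂σ.base, x ∉ K → σ.dens x = 0

/-- The partial derivative `∂ᵢ φ`. -/
noncomputable def pd {d : ℕ} (i : Fin d) (φ : E d → ℝ) (x : E d) : ℝ :=
  fderiv ℝ φ x (EuclideanSpace.single i 1)

/-- The Hessian matrix `∇² φ`. -/
noncomputable def hess {d : ℕ} (φ : E d → ℝ) (x : E d) : Matrix (Fin d) (Fin d) ℝ :=
  Matrix.of fun i j => pd i (pd j φ) x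

/-- `σ` is admissible for `f = fp - fm` (`fp`, `fm` finite positive measures) in the domain `Ω`:
`|σ|` vanishes off the closure of `Ω` and `div² σ = f` in distributions. -/
def IsAdmissible {d : ℕ} (Ω : Set (E d)) (fp fm : Measure (E d)) (σ : TensorMeasure d) : Prop :=
  σ.ConcentratedOn (closure Ω) ∧
    ∀ φ : E d → ℝ, ContDiff ℝ ∞ φ → HasCompactSupport φ →
      σ.pair (hess φ) = ∫ x, φ x ∂fp - ∫ x, φ x ∂fm

/-- `σ` is a solution of the confined second-order Beckmann problem. -/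
def IsSolution {d : ℕ} (Ω : Set (E d)) (fp fm : Measure (E d)) (σ : TensorMeasure d) : Prop :=
  IsAdmissible Ω fp fm σ ∧ ∀ τ : TensorMeasure d, IsAdmissible Ω fp fm τ → σ.cost ≤ τ.cost

/-- `∫ Ψ : |ξ - z| dσ^{z,x}(ξ)`, where `σ^{z,x} = e ⊗ e H¹⌞[z,x]`, `e = (x - z)/|x - z|`. -/
noncomputable def beam {d : ℕ} (z x : E d) (Ψ : E d → Matrix (Fin d) (Fin d) ℝ) : ℝ :=
  ∫ ξ in segment ℝ z x,
    dist ξ z * ∑ i, ∑ j, (‖x - z‖⁻¹ * (x i - z i)) * (‖x - z‖⁻¹ * (x j - z j)) * Ψ ξ i j
      ∂(Measure.hausdorffMeasure 1 : Measure (E d))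

/-- `⟨σ^{x,y,z}, Ψ⟩`. -/
noncomputable def tri {d : ℕ} (x y z : E d) (Ψ : E d → Matrix (Fin d) (Fin d) ℝ) : ℝ :=
  beam z x Ψ - beam z y Ψ

/-- `σ` has the form `σ_π + σ_{∂Ω}`, with `π` a finite positive measure on `closure Ω ^ 3` and
`σ_{∂Ω}` a tensor measure concentrated on `∂Ω` (the identity of measures is tested with all
continuous compactly supported symmetric tensor fields). -/
def IsRepresentable {d : ℕ} (Ω : Set (E d)) (σ : TensorMeasure d) : Prop :=
  ∃ (π : Measure (E d × E d × E d)) (τ : TensorMeasure d), IsFiniteMeasure π ∧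
    π (closure Ω ×ˢ closure Ω ×ˢ closure Ω)ᶜ = 0 ∧
    τ.ConcentratedOn (frontier Ω) ∧
    ∀ Ψ : E d → Matrix (Fin d) (Fin d) ℝ, Continuous Ψ → HasCompactSupport Ψ →
      (∀ x, (Ψ x).IsSymm) →
      σ.pair Ψ = ∫ p, tri p.1 p.2.1 p.2.2 Ψ ∂π + τ.pair Ψ

/-- Lipschitz boundary: near each boundary point `Ω` is, in a suitable direction `ν`, the open
region above the graph of a Lipschitz function (`γ` is invariant in the direction `ν`). -/
def HasLipschitzBoundary {d : ℕ} (Ω : Set (E d)) : Prop :=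
  ∀ p ∈ frontier Ω, ∃ (ν : E d) (γ : E d → ℝ) (K : ℝ≥0) (r : ℝ), ‖ν‖ = 1 ∧ 0 < r ∧
    LipschitzWith K γ ∧ (∀ (x : E d) (t : ℝ), γ (x + t • ν) = γ x) ∧
    ∀ x ∈ Metric.ball p r, (x ∈ Ω ↔ γ x < ⟪ν, x⟫_ℝ)

end Pool.Agent.H310.Beckmann
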