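import Pool.Agent.H310.Beckmann.Sol

open MeasureTheory Set Metric
open scoped ContDiff InnerProductSpace ENNReal NNReal

namespace Pool.Agent.H310.Beckmann

/-- the set of the tips' abscissas (in the coordinate `x - y`) -/
def Tips : Set ℝ := range fun k : ℕ => 2 + 2 * (1 / 2 : ℝ) ^ k

/-- the domain -/
def Om : Set (E 2) :=
  {p | -2 < p 0 ∧ p 0 < 5 ∧ -5 < p 1 ∧ p 1 < 2 ∧ -(1 / 2) * infDist (p 0 - p 1) Tips < p 0 + p 1}

lemma tips_nonempty : Tips.Nonempty := range_nonempty _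

lemma cont0 : Continuous fun p : E 2 => p 0 := (contDiff_coord 0).continuous
lemma cont1 : Continuous fun p : E 2 => p 1 := (contDiff_coord 1).continuous

lemma contG : Continuous fun p : E 2 => -(1 / 2) * infDist (p 0 - p 1) Tips :=
  ((continuous_infDist_pt Tips).comp (cont0.sub cont1)).const_mul _

lemma isOpen_Om : IsOpen Om := by
  unfold Om
  simp only [ofPred_and]
  refine (isOpen_lt continuous_const cont0).inter ((isOpen_lt cont0 continuous_const).inter
    ((isOpen_lt continuous_const cont1).inter ((isOpen_lt cont1 continuous_const).inter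
    (isOpen_lt contG (cont0.add cont1)))))

lemma closure_Om {p : E 2} (hp : p ∈ closure Om) :
    -2 ≤ p 0 ∧ p 0 ≤ 5 ∧ -5 ≤ p 1 ∧ p 1 ≤ 2 ∧ -(1 / 2) * infDist (p 0 - p 1) Tips ≤ p 0 + p 1 := by
  have hc : IsClosed {p : E 2 | -2 ≤ p 0 ∧ p 0 ≤ 5 ∧ -5 ≤ p 1 ∧ p 1 ≤ 2 ∧
      -(1 / 2) * infDist (p 0 - p 1) Tips ≤ p 0 + p 1} := by
    simp only [ofPred_and]
    refine (isClosed_le continuous_const cont0).inter ((isClosed_le cont0 continuous_const).inter
      ((isClosed_le continuous_const cont1).inter ((isClosed_le cont1 continuous_const).inter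
      (isClosed_le contG (cont0.add cont1)))))
  have hsub : Om ⊆ {p : E 2 | -2 ≤ p 0 ∧ p 0 ≤ 5 ∧ -5 ≤ p 1 ∧ p 1 ≤ 2 ∧
      -(1 / 2) * infDist (p 0 - p 1) Tips ≤ p 0 + p 1} := by
    rintro q ⟨h1, h2, h3, h4, h5⟩
    exact ⟨h1.le, h2.le, h3.le, h4.le, h5.le⟩
  exact closure_minimal hsub hc hp

lemma bounded_Om : Bornology.IsBounded Om := by
  apply (isBounded_ball (x := (0 : E 2)) (r := 10)).subset
  rintro p ⟨h1, h2, h3, h4, -⟩
  rw [mem_ball_zero_iff, EuclideanSpace.norm_eq]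
  rw [Real.sqrt_lt' (by norm_num)]
  simp only [Fin.sum_univ_two, Real.norm_eq_abs, sq_abs]
  nlinarith

lemma quadrant (k : ℕ) {p : E 2} (hp : p ∈ closure Om) (h : p 0 < 1 + (1 / 2 : ℝ) ^ k) :
    -(1 + (1 / 2 : ℝ) ^ k) ≤ p 1 := by
  obtain ⟨-, -, -, -, h5⟩ := closure_Om hp
  by_contra hc
  push Not at hc
  have h6 : infDist (p 0 - p 1) Tips ≤ dist (p 0 - p 1) (2 + 2 * (1 / 2 : ℝ) ^ k) :=
    infDist_le_dist_of_mem ⟨k, rfl⟩
  rw [Real.dist_eq] at h6
  have h7 : |p 0 - p 1 - (2 + 2 * (1 / 2 : ℝ) ^ k)| ≤ -(p 0 + p 1) := by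
    rw [abs_le]
    constructor <;> linarith
  have h8 : 0 < -(p 0 + p 1) := by linarith
  linarith

/-- the closed support set of the `k`-th test function -/
def Sk (k : ℕ) : Set (E 2) :=
  {p | 1 + (1 / 2 : ℝ) ^ (k + 1) + (1 / 2 : ℝ) ^ (k + 1) / 4 ≤ p 0 ∧
    p 0 ≤ 1 + (1 / 2 : ℝ) ^ (k + 1) + 3 * (1 / 2 : ℝ) ^ (k + 1) / 2 ∧
    -(1 + (1 / 2 : ℝ) ^ (k + 1)) - 17 * (1 / 2 : ℝ) ^ (k + 1) / 20 ≤ p 1 ∧
    p 1 ≤ -(1 + (1 / 2 : ℝ) ^ (k + 1)) + (1 / 2 : ℝ) ^ (k + 1) / 4 ∧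
    -3 / 40 * (1 / 2 : ℝ) ^ (k + 1) ≤ p 0 + p 1}

lemma isClosed_Sk (k : ℕ) : IsClosed (Sk k) := by
  unfold Sk
  simp only [ofPred_and]
  refine (isClosed_le continuous_const cont0).inter ((isClosed_le cont0 continuous_const).inter
      ((isClosed_le continuous_const cont1).inter ((isClosed_le cont1 continuous_const).inter
      (isClosed_le continuous_const (cont0.add cont1)))))

lemma Sk_subset (k : ℕ) : Sk k ⊆ Om := by
  rintro p ⟨h1, h2, h3, h4, h5⟩
  set w : ℝ := (1 / 2 : ℝ) ^ (k + 1) with hw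
  have hwpos : 0 < w := by positivity
  have hwle : w ≤ 1 / 2 := by
    have : (1 / 2 : ℝ) ^ (k + 1) ≤ (1 / 2 : ℝ) ^ 1 :=
      pow_le_pow_of_le_one (by norm_num) (by norm_num) (by omega)
    rw [pow_one] at this
    exact this
  refine ⟨by linarith, by linarith, by linarith, by linarith, ?_⟩
  rcases lt_or_ge 0 (p 0 + p 1) with hpos | hneg
  · have := infDist_nonneg (x := p 0 - p 1) (s := Tips)
    linarith
  · have hd : 3 / 10 * w ≤ infDist (p 0 - p 1) Tips := by
      rw [le_infDist tips_nonempty]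
      rintro _ ⟨j, rfl⟩
      rw [Real.dist_eq]
      rcases Nat.lt_or_ge k j with hj | hj
      · have hjle : (1 / 2 : ℝ) ^ j ≤ w :=
          pow_le_pow_of_le_one (by norm_num) (by norm_num) (by omega)
        apply le_trans _ (le_abs_self _)
        simp only
        linarith
      · have hjge : 2 * w ≤ (1 / 2 : ℝ) ^ j := by
          have : (1 / 2 : ℝ) ^ k ≤ (1 / 2 : ℝ) ^ j :=
            pow_le_pow_of_le_one (by norm_num) (by norm_num) hj
          have e : (1 / 2 : ℝ) ^ k = 2 * w := by rw [hw, pow_succ]; ring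
          linarith
        rw [abs_sub_comm]
        apply le_trans _ (le_abs_self _)
        simp only
        linarith
    linarith

lemma isConnected_Om : IsConnected Om := by
  have hc : pt (7 / 2) (1 / 2) ∈ Om := by
    refine ⟨by simp; norm_num, by simp; norm_num, by simp; norm_num, by simp; norm_num, ?_⟩
    have := infDist_nonneg (x := pt (7 / 2) (1 / 2) 0 - pt (7 / 2) (1 / 2) 1) (s := Tips)
    simp only [pt_zero, pt_one] at this ⊢
    linarith
  have hstar : StarConvex ℝ (pt (7 / 2) (1 / 2)) Om := by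
    intro q hq a b ha hb hab
    obtain ⟨h1, h2, h3, h4, h5⟩ := hq
    have e0 : (a • pt (7 / 2) (1 / 2) + b • q) 0 = a * (7 / 2) + b * q 0 := by simp
    have e1 : (a • pt (7 / 2) (1 / 2) + b • q) 1 = a * (1 / 2) + b * q 1 := by simp
    have hb' : b = 1 - a := by linarith
    rcases eq_or_lt_of_le hb with hb0 | hbpos
    · have ha1 : a = 1 := by linarith
      rw [← hb0, ha1]
      simpa using hc
    refine ⟨?_, ?_, ?_, ?_, ?_⟩
    · rw [e0]; nlinarith
    · rw [e0]; nlinarith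
    · rw [e1]; nlinarith
    · rw [e1]; nlinarith
    · rw [e0, e1]
      have hnn := infDist_nonneg (x := a * (7 / 2) + b * q 0 - (a * (1 / 2) + b * q 1)) (s := Tips)
      rcases lt_or_ge 0 (q 0 + q 1) with hpos | hneg
      · have : 0 < a * 4 + b * (q 0 + q 1) := by
          have := mul_pos hbpos hpos
          linarith
        linarith
      · have hle : infDist (q 0 - q 1) Tips ≤
            infDist (a * (7 / 2) + b * q 0 - (a * (1 / 2) + b * q 1)) Tips +
              dist (q 0 - q 1) (a * (7 / 2) + b * q 0 - (a * (1 / 2) + b * q 1)) :=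
          infDist_le_infDist_add_dist
        have hd : dist (q 0 - q 1) (a * (7 / 2) + b * q 0 - (a * (1 / 2) + b * q 1)) ≤ 7 * a := by
          rw [Real.dist_eq, abs_le]
          constructor <;> rw [hb'] <;> nlinarith
        have : a * (q 0 + q 1) ≤ 0 := mul_nonpos_of_nonneg_of_nonpos ha hneg
        rw [hb'] at hle hd ⊢
        linarith
  exact (hstar.isPathConnected hc).isConnected

lemma coord_sub_le (x y : E 2) (i : Fin 2) : |x i - y i| ≤ dist x y := by
  rw [EuclideanSpace.dist_eq]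
  apply Real.abs_le_sqrt
  rw [Fin.sum_univ_two, Real.dist_eq, Real.dist_eq, sq_abs, sq_abs]
  fin_cases i
  · simp; positivity
  · simp; positivity

/-- chart lemma -/
lemma chart {p : E 2} {a b : ℝ} (ha : a ^ 2 = 1) (hb : b ^ 2 = 1) {Γ : ℝ → ℝ} {K : ℝ≥0}
    (hΓ : LipschitzWith K Γ)
    (h : ∀ᶠ q in nhds p, (q ∈ Om ↔ Γ (b * q 0 - a * q 1) < a * q 0 + b * q 1)) :
    ∃ (ν : E 2) (γ : E 2 → ℝ) (K : ℝ≥0) (r : ℝ), ‖ν‖ = 1 ∧ 0 < r ∧
    LipschitzWith K γ ∧ (∀ (x : E 2) (t : ℝ), γ (x + t • ν) = γ x) ∧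
    ∀ x ∈ Metric.ball p r, (x ∈ Om ↔ γ x < ⟪ν, x⟫_ℝ) := by
  obtain ⟨r, hr, hball⟩ := Metric.eventually_nhds_iff_ball.1 h
  have hs : 0 < √(2:ℝ) := Real.sqrt_pos.2 two_pos
  have hs2 : √(2:ℝ) ^ 2 = 2 := Real.sq_sqrt two_pos.le
  have ha' : |a| = 1 := by
    rw [← sq_eq_sq₀ (abs_nonneg _) zero_le_one, sq_abs, ha, one_pow]
  have hb' : |b| = 1 := by
    rw [← sq_eq_sq₀ (abs_nonneg _) zero_le_one, sq_abs, hb, one_pow]
  refine ⟨pt (a / √2) (b / √2), fun q => Γ (b * q 0 - a * q 1) / √2, 2 * K, r, ?_, hr, ?_, ?_, ?_⟩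
  · rw [EuclideanSpace.norm_eq, Fin.sum_univ_two]
    simp only [pt_zero, pt_one, Real.norm_eq_abs, sq_abs]
    rw [div_pow, div_pow, ha, hb, hs2]
    norm_num
  · apply LipschitzWith.of_dist_le_mul
    intro x y
    have h1 := hΓ.dist_le_mul (b * x 0 - a * x 1) (b * y 0 - a * y 1)
    rw [Real.dist_eq] at h1 ⊢
    have c0 := coord_sub_le x y 0
    have c1 := coord_sub_le x y 1
    have h2 : dist (b * x 0 - a * x 1) (b * y 0 - a * y 1) ≤ 2 * dist x y := by
      rw [Real.dist_eq]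
      have : b * x 0 - a * x 1 - (b * y 0 - a * y 1) = b * (x 0 - y 0) - a * (x 1 - y 1) := by ring
      rw [this]
      calc _ ≤ |b * (x 0 - y 0)| + |a * (x 1 - y 1)| := abs_sub _ _
        _ = |x 0 - y 0| + |x 1 - y 1| := by rw [abs_mul, abs_mul, ha', hb']; ring
        _ ≤ 2 * dist x y := by linarith
    rw [← sub_div, abs_div, abs_of_pos hs]
    have h3 : (1:ℝ) ≤ √2 := by
      rw [Real.one_le_sqrt]
      norm_num
    have hK : (0:ℝ) ≤ K := K.coe_nonneg
    have h4 : |Γ (b * x 0 - a * x 1) - Γ (b * y 0 - a * y 1)| ≤ 2 * K * dist x y := by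
      refine h1.trans ?_
      have := mul_le_mul_of_nonneg_left h2 hK
      linarith
    push_cast
    refine (div_le_self (abs_nonneg _) h3).trans h4
  · intro x t
    simp only
    congr 2
    simp only [PiLp.add_apply, PiLp.smul_apply, pt_zero, pt_one, smul_eq_mul]
    ring
  · intro x hx
    rw [hball x hx]
    have : ⟪pt (a / √2) (b / √2), x⟫_ℝ = (a * x 0 + b * x 1) / √2 := by
      rw [PiLp.inner_apply, Fin.sum_univ_two]
      simp
      ring
    rw [this]
    exact (div_lt_div_iff_of_pos_right hs).symm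

end Pool.Agent.H310.Beckmann
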