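import Pool.Agent.H310.Beckmann.Test

open MeasureTheory Set
open scoped ContDiff InnerProductSpace ENNReal NNReal

namespace Pool.Agent.H310.Beckmann

/-- profile across the segment -/
noncomputable def hh (τ : ℝ) : ℝ := Real.smoothTransition (40 * τ + 3) * (2 + 20 * τ)

lemma contDiff_hh : ContDiff ℝ ∞ hh := by
  unfold hh
  apply ContDiff.mul
  · apply Real.smoothTransition.contDiff.comp
    fun_prop
  · fun_prop

lemma hh_of_le {τ : ℝ} (h : τ ≤ -3 / 40) : hh τ = 0 := by
  unfold hh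
  rw [Real.smoothTransition.zero_of_nonpos (by linarith), zero_mul]

lemma hh_nonneg (τ : ℝ) : 0 ≤ hh τ := by
  rcases le_total τ (-3 / 40) with h | h
  · rw [hh_of_le h]
  · exact mul_nonneg (Real.smoothTransition.nonneg _) (by linarith)

lemma hh_ge (τ : ℝ) : 1 + 20 * τ ≤ hh τ := by
  rcases le_total τ (-1 / 20) with h | h
  · have := hh_nonneg τ
    linarith
  · unfold hh
    rw [Real.smoothTransition.one_of_one_le (by linarith)]
    linarith

lemma hh_le {τ : ℝ} (h : τ ≤ 7 / 4) : hh τ ≤ 37 := by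
  rcases le_total τ (-3 / 40) with h' | h'
  · rw [hh_of_le h']
    norm_num
  · unfold hh
    have h1 := Real.smoothTransition.le_one (40 * τ + 3)
    have h0 := Real.smoothTransition.nonneg (40 * τ + 3)
    nlinarith

lemma hh_mono : Monotone hh := by
  intro a b hab
  rcases le_total a (-3 / 40) with h' | h'
  · rw [hh_of_le h']
    exact hh_nonneg b
  · unfold hh
    apply mul_le_mul _ (by linarith) (by linarith) (Real.smoothTransition.nonneg _)
    exact Real.smoothTransition.monotone (by linarith)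

lemma dhh_nonneg (τ : ℝ) : 0 ≤ deriv hh τ := hh_mono.deriv_nonneg

section phi

variable {σ : TensorMeasure 2} {K : Set (E 2)} {l w : ℝ}

/-- right cut-off -/
noncomputable def rho (l w : ℝ) : ℝ → ℝ := fun x => 1 - Real.smoothTransition (4 * (x - l - w) / w - 1)

/-- upper cut-off -/
noncomputable def rho2 (l w : ℝ) : ℝ → ℝ := fun y => 1 - Real.smoothTransition (8 * (y + l) / w - 1)

/-- lower cut-off -/
noncomputable def Bf (l w : ℝ) : ℝ → ℝ := fun y => Real.smoothTransition (20 * (y + l) / w + 17)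

/-- first factor -/
noncomputable def Rf (l w : ℝ) : ℝ → ℝ := fun x => rho l w x * A0 l w x

/-- second factor -/
noncomputable def Qf (l w : ℝ) : ℝ → ℝ := fun y => rho2 l w y * Bf l w y

lemma contDiff_rho (l w : ℝ) : ContDiff ℝ ∞ (rho l w) := by
  unfold rho
  apply contDiff_const.sub
  apply Real.smoothTransition.contDiff.comp
  fun_prop

lemma contDiff_rho2 (l w : ℝ) : ContDiff ℝ ∞ (rho2 l w) := by
  unfold rho2
  apply contDiff_const.sub
  apply Real.smoothTransition.contDiff.comp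
  fun_prop

lemma contDiff_Bf (l w : ℝ) : ContDiff ℝ ∞ (Bf l w) := by
  unfold Bf
  apply Real.smoothTransition.contDiff.comp
  fun_prop

lemma contDiff_Rf (l w : ℝ) : ContDiff ℝ ∞ (Rf l w) := (contDiff_rho l w).mul (contDiff_A0 l w)

lemma contDiff_Qf (l w : ℝ) : ContDiff ℝ ∞ (Qf l w) := (contDiff_rho2 l w).mul (contDiff_Bf l w)

lemma rho_of_le (hw : 0 < w) {x : ℝ} (h : x ≤ l + w + w / 4) : rho l w x = 1 := by
  unfold rho
  rw [Real.smoothTransition.zero_of_nonpos, sub_zero]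
  have : 4 * (x - l - w) / w ≤ 1 := by
    rw [div_le_iff₀ hw]
    linarith
  linarith

lemma rho_of_ge (hw : 0 < w) {x : ℝ} (h : l + 3 * w / 2 ≤ x) : rho l w x = 0 := by
  unfold rho
  rw [Real.smoothTransition.one_of_one_le, sub_self]
  have : 2 ≤ 4 * (x - l - w) / w := by
    rw [le_div_iff₀ hw]
    linarith
  linarith

lemma rho_nonneg (x : ℝ) : 0 ≤ rho l w x := by
  unfold rho
  have := Real.smoothTransition.le_one (4 * (x - l - w) / w - 1)
  linarith

lemma rho_le_one (x : ℝ) : rho l w x ≤ 1 := by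
  unfold rho
  have := Real.smoothTransition.nonneg (4 * (x - l - w) / w - 1)
  linarith

lemma rho2_of_le (hw : 0 < w) {y : ℝ} (h : y ≤ -l) : rho2 l w y = 1 := by
  unfold rho2
  rw [Real.smoothTransition.zero_of_nonpos, sub_zero]
  have : 8 * (y + l) / w ≤ 1 := by
    rw [div_le_iff₀ hw]
    linarith
  linarith

lemma rho2_of_ge (hw : 0 < w) {y : ℝ} (h : -l + w / 4 ≤ y) : rho2 l w y = 0 := by
  unfold rho2
  rw [Real.smoothTransition.one_of_one_le, sub_self]
  have : 2 ≤ 8 * (y + l) / w := by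
    rw [le_div_iff₀ hw]
    linarith
  linarith

lemma rho2_nonneg (x : ℝ) : 0 ≤ rho2 l w x := by
  unfold rho2
  have := Real.smoothTransition.le_one (8 * (x + l) / w - 1)
  linarith

lemma rho2_le_one (x : ℝ) : rho2 l w x ≤ 1 := by
  unfold rho2
  have := Real.smoothTransition.nonneg (8 * (x + l) / w - 1)
  linarith

lemma Bf_of_le (hw : 0 < w) {y : ℝ} (h : y ≤ -l - 17 * w / 20) : Bf l w y = 0 := by
  unfold Bf
  rw [Real.smoothTransition.zero_of_nonpos]
  have : 20 * (y + l) / w ≤ -17 := by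
    rw [div_le_iff₀ hw]
    linarith
  linarith

lemma Bf_of_ge (hw : 0 < w) {y : ℝ} (h : -l - 4 * w / 5 ≤ y) : Bf l w y = 1 := by
  unfold Bf
  rw [Real.smoothTransition.one_of_one_le]
  have : -16 ≤ 20 * (y + l) / w := by
    rw [le_div_iff₀ hw]
    linarith
  linarith

lemma Bf_nonneg (x : ℝ) : 0 ≤ Bf l w x := Real.smoothTransition.nonneg _

lemma Bf_le_one (x : ℝ) : Bf l w x ≤ 1 := Real.smoothTransition.le_one _

/-- the test function on a square -/
noncomputable def phi (l w : ℝ) (p : E 2) : ℝ := Rf l w (p 0) * Qf l w (p 1) * hh ((p 0 + p 1) / w)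

lemma contDiff_phi (l w : ℝ) : ContDiff ℝ ∞ (phi l w) := by
  unfold phi
  apply ContDiff.mul
  · exact ((contDiff_Rf l w).comp (contDiff_coord 0)).mul ((contDiff_Qf l w).comp (contDiff_coord 1))
  · exact contDiff_hh.comp (((contDiff_coord 0).add (contDiff_coord 1)).div_const _)

lemma pd0_phi (p : E 2) : pd 0 (phi l w) p =
    deriv (Rf l w) (p 0) * Qf l w (p 1) * hh ((p 0 + p 1) / w) +
      Rf l w (p 0) * Qf l w (p 1) * (deriv hh ((p 0 + p 1) / w) / w) := by
  have hR : DifferentiableAt ℝ (Rf l w) (p 0) := (contDiff_Rf l w).differentiable (by simp) _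
  have hQ : DifferentiableAt ℝ (Qf l w) (p 1) := (contDiff_Qf l w).differentiable (by simp) _
  have hH : DifferentiableAt ℝ hh ((p 0 + p 1) / w) := contDiff_hh.differentiable (by simp) _
  have h1 := hasFDerivAt_prodF (p := p) hR hQ
  have hlin : HasFDerivAt (fun p : E 2 => (p 0 + p 1) / w)
      ((w⁻¹ : ℝ) • ((EuclideanSpace.proj (𝕜 := ℝ) 0 : E 2 →L[ℝ] ℝ) +
        (EuclideanSpace.proj (𝕜 := ℝ) 1 : E 2 →L[ℝ] ℝ))) p := by
    have := ((hasFDerivAt_coord 0 p).add (hasFDerivAt_coord 1 p)).const_smul (w⁻¹ : ℝ)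
    refine this.congr_of_eventuallyEq (Filter.Eventually.of_forall fun q => ?_)
    simp [div_eq_inv_mul]
  have h2 := hH.hasDerivAt.comp_hasFDerivAt p hlin
  have h3 := h1.mul h2
  have h4 : HasFDerivAt (phi l w) _ p := h3
  rw [pd, h4.fderiv]
  simp [prodF, EuclideanSpace.proj]
  ring

lemma phi_ne_zero (hw : 0 < w) {p : E 2} (h : phi l w p ≠ 0) :
    l + w / 4 < p 0 ∧ p 0 < l + 3 * w / 2 ∧ -l - 17 * w / 20 < p 1 ∧ p 1 < -l + w / 4 ∧
      -3 / 40 * w < p 0 + p 1 := by
  unfold phi Rf Qf at h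
  refine ⟨?_, ?_, ?_, ?_, ?_⟩ <;> by_contra hc <;> push Not at hc <;> apply h
  · rw [A0_of_le hw hc]; ring
  · rw [rho_of_ge hw hc]; ring
  · rw [Bf_of_le hw hc]; ring
  · rw [rho2_of_ge hw hc]; ring
  · rw [hh_of_le]
    · ring
    · rw [div_le_iff₀ hw]
      exact hc

lemma phi_nonneg (p : E 2) : 0 ≤ phi l w p :=
  mul_nonneg (mul_nonneg (mul_nonneg (rho_nonneg _) (A0_nonneg _))
    (mul_nonneg (rho2_nonneg _) (Bf_nonneg _))) (hh_nonneg _)

lemma phi_le (hw : 0 < w) (p : E 2) : phi l w p ≤ 37 := by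
  by_cases h : phi l w p = 0
  · rw [h]; norm_num
  · obtain ⟨h1, h2, h3, h4, h5⟩ := phi_ne_zero hw h
    have hτ : (p 0 + p 1) / w ≤ 7 / 4 := by
      rw [div_le_iff₀ hw]
      linarith
    have a1 := hh_le hτ
    have a0 := hh_nonneg ((p 0 + p 1) / w)
    have b1 : Rf l w (p 0) ≤ 1 := mul_le_one₀ (rho_le_one _) (A0_nonneg _) (A0_le_one _)
    have b0 : 0 ≤ Rf l w (p 0) := mul_nonneg (rho_nonneg _) (A0_nonneg _)
    have c1 : Qf l w (p 1) ≤ 1 := mul_le_one₀ (rho2_le_one _) (Bf_nonneg _) (Bf_le_one _)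
    have c0 : 0 ≤ Qf l w (p 1) := mul_nonneg (rho2_nonneg _) (Bf_nonneg _)
    have d1 : Rf l w (p 0) * Qf l w (p 1) ≤ 1 := mul_le_one₀ b1 c0 c1
    unfold phi
    calc Rf l w (p 0) * Qf l w (p 1) * hh ((p 0 + p 1) / w) ≤ 1 * hh ((p 0 + p 1) / w) :=
          mul_le_mul_of_nonneg_right d1 a0
      _ ≤ 37 := by linarith

lemma pointwise (hw : 0 < w) (p : E 2) (s : ℝ) (hs : 0 ≤ s)
    (n1 : l < p 0 → -l < p 1 → s = 0) (n2 : l + w < p 0 → -(l + w) < p 1 → s = 0) :
    deriv (A0 l w) (p 0) * (1 + 20 * ((p 0 + p 1) / w)) * s ≤ pd 0 (phi l w) p * s := by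
  rcases eq_or_lt_of_le hs with h0 | hpos
  · rw [← h0]; simp
  apply mul_le_mul_of_nonneg_right _ hs
  rw [pd0_phi]
  rcases le_or_gt (p 0) l with hx | hx
  · have e : Rf l w =ᶠ[nhds (p 0)] fun _ => 0 := by
      filter_upwards [gt_mem_nhds (show p 0 < l + w / 4 by linarith)] with y hy
      simp [Rf, A0_of_le hw hy.le]
    rw [e.deriv_eq, e.eq_of_nhds, dA0_of_lt hw (by linarith)]
    simp
  have hy : p 1 ≤ -l := by
    by_contra hc
    push Not at hc
    exact hpos.ne' (n1 hx hc)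
  rcases le_or_gt (p 0) (l + w) with hx2 | hx2
  · have e : Rf l w =ᶠ[nhds (p 0)] A0 l w := by
      filter_upwards [gt_mem_nhds (show p 0 < l + w + w / 4 by linarith)] with y hy
      simp [Rf, rho_of_le hw hy.le]
    rw [e.deriv_eq, e.eq_of_nhds]
    have q : Qf l w (p 1) = Bf l w (p 1) := by simp [Qf, rho2_of_le hw hy]
    rw [q]
    have hA' := dA0_nonneg (l := l) hw (p 0)
    have hA := A0_nonneg (l := l) (w := w) (p 0)
    have hB := Bf_nonneg (l := l) (w := w) (p 1)
    have hH := hh_nonneg ((p 0 + p 1) / w)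
    have hH' := dhh_nonneg ((p 0 + p 1) / w)
    have t2 : 0 ≤ A0 l w (p 0) * Bf l w (p 1) * (deriv hh ((p 0 + p 1) / w) / w) :=
      mul_nonneg (mul_nonneg hA hB) (div_nonneg hH' hw.le)
    have t1 : 0 ≤ deriv (A0 l w) (p 0) * Bf l w (p 1) * hh ((p 0 + p 1) / w) :=
      mul_nonneg (mul_nonneg hA' hB) hH
    rcases le_or_gt (p 0) (l + 3 * w / 4) with hx3 | hx3
    · rcases le_or_gt (-l - 4 * w / 5) (p 1) with hy2 | hy2
      · rw [Bf_of_ge hw hy2] at t2 ⊢
        have := mul_le_mul_of_nonneg_left (hh_ge ((p 0 + p 1) / w)) hA'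
        linarith
      · have hneg : 1 + 20 * ((p 0 + p 1) / w) ≤ 0 := by
          have : (p 0 + p 1) / w ≤ -1 / 20 := by
            rw [div_le_iff₀ hw]
            linarith
          linarith
        have := mul_nonpos_of_nonneg_of_nonpos hA' hneg
        linarith
    · rw [dA0_of_gt hw hx3]
      rw [dA0_of_gt hw hx3] at t1
      linarith
  · have hy2 : p 1 ≤ -(l + w) := by
      by_contra hc
      push Not at hc
      exact hpos.ne' (n2 hx2 hc)
    have q : Qf l w (p 1) = 0 := by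
      simp [Qf, Bf_of_le (l := l) hw (show p 1 ≤ -l - 17 * w / 20 by linarith)]
    rw [q, dA0_of_gt hw (by linarith)]
    simp

lemma square_bound (h : Good σ K) (hw : 0 < w) (hl : 1 ≤ l) (hlw : l + w ≤ 2)
    (hq1 : ∀ p ∈ K, p 0 < l → -l ≤ p 1) (hq2 : ∀ p ∈ K, p 0 < l + w → -(l + w) ≤ p 1) :
    1 ≤ ∫ p, pd 0 (phi l w) p * σ.dens p 0 0 ∂σ.base := by
  rw [← moment h hw (by linarith) (by linarith : l + 3 * w / 4 ≤ 3)]
  have cA : Continuous fun p : E 2 => deriv (A0 l w) (p 0) :=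
    (smooth_deriv (contDiff_A0 l w)).continuous.comp (contDiff_coord 0).continuous
  have c0 : Continuous fun p : E 2 => p 0 := (contDiff_coord 0).continuous
  have c1 : Continuous fun p : E 2 => p 1 := (contDiff_coord 1).continuous
  have I1 : Integrable (fun p : E 2 => deriv (A0 l w) (p 0) * (1 + 20 * ((p 0 + p 1) / w)) *
      σ.dens p 0 0) σ.base :=
    h.integrable_mul (cA.mul (continuous_const.add (((c0.add c1).div_const _).const_mul _))) 0 0
  have I2 : Integrable (fun p : E 2 => pd 0 (phi l w) p * σ.dens p 0 0) σ.base :=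
    h.integrable_mul (contDiff_pd (contDiff_phi l w)).continuous 0 0
  apply integral_mono_ae I1 I2
  filter_upwards [h.diag, null_region h hq1 hl (by linarith), null_region h hq2 (by linarith) hlw]
    with p hd n1 n2
  exact pointwise hw p _ hd.2.2.1 n1 n2

end phi

end Pool.Agent.H310.Beckmann
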