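import Pool.Agent.H310.Beckmann.Cand
import Pool.Agent.H310.Beckmann.Phi

open MeasureTheory Set Metric
open scoped ContDiff InnerProductSpace ENNReal NNReal

namespace Pool.Agent.H310.Beckmann

lemma bound_hess {φ : E 2 → ℝ} (hφ : ContDiff ℝ ∞ φ) (hc : HasCompactSupport φ) (i j : Fin 2) :
    ∃ C, ∀ p, ‖hess φ p i j‖ ≤ C := by
  have h1 : HasCompactSupport (pd j φ) := hc.fderiv_apply (𝕜 := ℝ) _
  have h2 : HasCompactSupport (pd i (pd j φ)) := h1.fderiv_apply (𝕜 := ℝ) _
  have h3 : Continuous (pd i (pd j φ)) := (contDiff_pd (contDiff_pd hφ)).continuous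
  exact h2.exists_bound_of_continuous h3

lemma integrable_aux {φ : E 2 → ℝ} (hφ : ContDiff ℝ ∞ φ) (hc : HasCompactSupport φ) :
    Integrable (fun p => hess φ p 0 0 * S0 p 0 0 + hess φ p 1 1 * S0 p 1 1) base0 := by
  have main : ∀ i : Fin 2, Integrable (fun p => hess φ p i i * S0 p i i) base0 := by
    intro i
    obtain ⟨C, hC⟩ := bound_hess hφ hc i i
    have c : Continuous fun p => hess φ p i i := (contDiff_pd (contDiff_pd hφ)).continuous
    exact (sig0.integrable i i).bdd_mul c.aestronglyMeasurable (Filter.Eventually.of_forall hC)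
  exact (main 0).add (main 1)

/-- points of the closed upper side belong to the closure -/
lemma mem_closure_Om {p : E 2} (h1 : -2 < p 0) (h2 : p 0 < 5) (h3 : -5 < p 1) (h4 : p 1 < 2)
    (h5 : 0 ≤ p 0 + p 1) : p ∈ closure Om := by
  have ht : Filter.Tendsto (fun t : ℝ => p + t • pt 1 1) (nhdsWithin 0 (Ioi 0)) (nhds p) := by
    have : Continuous fun t : ℝ => p + t • pt 1 1 := by fun_prop
    have h := (this.tendsto 0).mono_left (nhdsWithin_le_nhds (s := Ioi (0:ℝ)))
    simpa using h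
  apply mem_closure_of_tendsto ht
  have e1 : ∀ᶠ q in nhds p, -2 < q 0 := (isOpen_lt continuous_const cont0).mem_nhds h1
  have e2 : ∀ᶠ q in nhds p, q 0 < 5 := (isOpen_lt cont0 continuous_const).mem_nhds h2
  have e3 : ∀ᶠ q in nhds p, -5 < q 1 := (isOpen_lt continuous_const cont1).mem_nhds h3
  have e4 : ∀ᶠ q in nhds p, q 1 < 2 := (isOpen_lt cont1 continuous_const).mem_nhds h4
  filter_upwards [ht.eventually e1, ht.eventually e2, ht.eventually e3, ht.eventually e4,
    self_mem_nhdsWithin] with t a1 a2 a3 a4 a5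
  refine ⟨a1, a2, a3, a4, ?_⟩
  have hnn := infDist_nonneg (x := (p + t • pt 1 1) 0 - (p + t • pt 1 1) 1) (s := Tips)
  have : 0 < (p + t • pt 1 1) 0 + (p + t • pt 1 1) 1 := by
    simp only [PiLp.add_apply, PiLp.smul_apply, pt_zero, pt_one, smul_eq_mul]
    have : (0:ℝ) < t := a5
    linarith
  linarith

lemma infDist_left {v : ℝ} (_hv : v ≤ 0) : 2 - v ≤ infDist v Tips := by
  rw [le_infDist tips_nonempty]
  rintro _ ⟨j, rfl⟩
  have hj0 : 0 < (1 / 2 : ℝ) ^ j := by positivity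
  rw [Real.dist_eq, abs_sub_comm]
  apply le_trans _ (le_abs_self _)
  simp only
  linarith

lemma infDist_right {v : ℝ} (_hv : 4 ≤ v) : v - 4 ≤ infDist v Tips := by
  rw [le_infDist tips_nonempty]
  rintro _ ⟨j, rfl⟩
  have hj1 : (1 / 2 : ℝ) ^ j ≤ 1 := pow_le_one₀ (by norm_num) (by norm_num)
  rw [Real.dist_eq]
  apply le_trans _ (le_abs_self _)
  simp only
  linarith

lemma mem_left {u : ℝ} (h1 : -1 ≤ u) (h2 : u ≤ 0) : pt u 0 ∈ Om := by
  have := infDist_left h2
  refine ⟨?_, ?_, ?_, ?_, ?_⟩ <;> simp only [pt_zero, pt_one]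
  · linarith
  · linarith
  · norm_num
  · norm_num
  · rw [sub_zero]
    linarith

lemma mem_down {u : ℝ} (h1 : -4 ≤ u) (h2 : u ≤ -3) : pt 3 u ∈ Om := by
  have := infDist_right (show 4 ≤ 3 - u by linarith)
  refine ⟨?_, ?_, ?_, ?_, ?_⟩ <;> simp only [pt_zero, pt_one]
  · linarith
  · linarith
  · linarith
  · linarith
  · linarith

lemma ae_piece {a α b β s t : ℝ} (h : ∀ u ∈ Ioo s t, line a α b β u ∈ closure Om) :
    ∀ᵐ p ∂(piece a α b β s t), p ∈ closure Om := by
  unfold piece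
  have hm : MeasurableSet {p : E 2 | p ∈ closure Om} := isClosed_closure.measurableSet
  rw [ae_map_iff (continuous_line a α b β).aemeasurable hm]
  exact ae_restrict_of_forall_mem measurableSet_Ioo h

lemma ae_base0 : ∀ᵐ p ∂base0, p ∈ closure Om := by
  unfold base0
  simp only [ae_add_measure_iff]
  refine ⟨⟨⟨⟨?_, ?_⟩, ?_⟩, ?_⟩, ?_⟩
  · apply ae_piece
    intro u hu
    apply subset_closure
    have : line 0 1 0 0 u = pt u 0 := by simp [line]
    rw [this]
    exact mem_left hu.1.le hu.2.le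
  · apply ae_piece
    intro u hu
    apply mem_closure_Om <;> simp [line] <;> linarith [hu.1, hu.2]
  · apply ae_piece
    intro u hu
    apply mem_closure_Om <;> simp [line] <;> linarith [hu.1, hu.2]
  · apply ae_piece
    intro u hu
    apply subset_closure
    have : line 3 0 0 1 u = pt 3 u := by simp [line]
    rw [this]
    exact mem_down hu.1.le hu.2.le
  · apply ae_piece
    intro u hu
    apply mem_closure_Om <;> simp [line] <;> linarith [hu.1, hu.2]

lemma fpos_closure : fpos (closure Om)ᶜ = 0 := by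
  have h1 : pt (-1) 0 ∈ closure Om := subset_closure (mem_left le_rfl (by norm_num))
  have h2 : pt 4 (-3) ∈ closure Om := by
    apply mem_closure_Om <;> simp <;> norm_num
  unfold fpos
  simp [h1, h2]

lemma fneg_closure : fneg (closure Om)ᶜ = 0 := by
  have h1 : pt 3 (-4) ∈ closure Om := subset_closure (mem_down le_rfl (by norm_num))
  have h2 : pt 0 1 ∈ closure Om := by
    apply mem_closure_Om <;> simp; norm_num
  unfold fneg
  simp [h1, h2]

lemma admissible_sig0 : IsAdmissible Om fpos fneg sig0 := by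
  refine ⟨?_, fun φ hφ hc => ?_⟩
  · have h := ae_base0
    show ∀ᵐ x ∂base0, x ∉ closure Om → S0 x = 0
    filter_upwards [h] with p hp hn
    exact absurd hp hn
  · rw [pair_sig0 hφ (integrable_aux hφ hc), integral_fpos, integral_fneg]
    ring

lemma energy {τ : TensorMeasure 2} (h : IsAdmissible Om fpos fneg τ) :
    ∫ p, (τ.dens p 0 0 - τ.dens p 1 1) ∂τ.base = 8 := by
  rw [← pair_cert, weak4 bounded_Om fpos_closure fneg_closure h contDiff_cert]
  simp [cert, prodF]
  norm_num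

lemma cost_ge {τ : TensorMeasure 2} (h : IsAdmissible Om fpos fneg τ) :
    ENNReal.ofReal 8 ≤ τ.cost := by
  rw [τ.cost_eq]
  apply ENNReal.ofReal_le_ofReal
  rw [← energy h]
  exact integral_mono ((τ.integrable 0 0).sub (τ.integrable 1 1)) τ.integrable_nuc
    (fun p => sub_le_nuc _ (τ.symm p))

lemma cost_sig0 : sig0.cost = ENNReal.ofReal 8 := by
  rw [sig0.cost_eq, ← energy admissible_sig0]
  congr 2
  funext p
  obtain ⟨h0, h1, h2, h3, h4, h5, h6⟩ := S0_facts p
  exact nuc_diag _ h0 h1 h3 h5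

lemma solution_sig0 : IsSolution Om fpos fneg sig0 := by
  refine ⟨admissible_sig0, fun τ hτ => ?_⟩
  rw [cost_sig0]
  exact cost_ge hτ

lemma good_of_solution {σ : TensorMeasure 2} (h : IsSolution Om fpos fneg σ) :
    Good σ (closure Om) := by
  apply good_of bounded_Om fpos_closure fneg_closure h.1
  · intro p hp
    obtain ⟨a1, a2, a3, a4, -⟩ := closure_Om hp
    exact ⟨a1, a2, a3, a4⟩
  · rw [← cost_sig0]
    exact h.2 _ admissible_sig0

/-- the `k`-th test function -/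
noncomputable def ph (k : ℕ) : E 2 → ℝ := phi (1 + (1 / 2 : ℝ) ^ (k + 1)) ((1 / 2 : ℝ) ^ (k + 1))

lemma ph_bound {σ : TensorMeasure 2} (h : Good σ (closure Om)) (k : ℕ) :
    1 ≤ ∫ p, pd 0 (ph k) p * σ.dens p 0 0 ∂σ.base := by
  have hw : 0 < (1 / 2 : ℝ) ^ (k + 1) := by positivity
  have e : 1 + (1 / 2 : ℝ) ^ (k + 1) + (1 / 2 : ℝ) ^ (k + 1) = 1 + (1 / 2 : ℝ) ^ k := by
    rw [pow_succ]; ring
  have hle : (1 / 2 : ℝ) ^ k ≤ 1 := pow_le_one₀ (by norm_num) (by norm_num)
  apply square_bound h hw (by linarith) (by rw [e]; linarith)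
  · intro p hp hlt
    exact quadrant (k + 1) hp hlt
  · intro p hp hlt
    rw [e] at hlt ⊢
    exact quadrant k hp hlt

lemma ph_ne_zero {k : ℕ} {p : E 2} (h : ph k p ≠ 0) :
    1 + 5 / 4 * (1 / 2 : ℝ) ^ (k + 1) < p 0 ∧ p 0 < 1 + 5 / 2 * (1 / 2 : ℝ) ^ (k + 1) ∧ p ∈ Sk k := by
  have hw : 0 < (1 / 2 : ℝ) ^ (k + 1) := by positivity
  obtain ⟨h1, h2, h3, h4, h5⟩ := phi_ne_zero hw h
  exact ⟨by linarith, by linarith, h1.le, h2.le, h3.le, h4.le, h5.le⟩

lemma ph_disjoint {j k : ℕ} {p : E 2} (hj : ph j p ≠ 0) (hk : ph k p ≠ 0) : j = k := by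
  obtain ⟨a1, a2, -⟩ := ph_ne_zero hj
  obtain ⟨b1, b2, -⟩ := ph_ne_zero hk
  by_contra hne
  rcases Nat.lt_or_gt_of_ne hne with h | h
  · have : (1 / 2 : ℝ) ^ (k + 1) ≤ (1 / 2 : ℝ) ^ (j + 1 + 1) :=
      pow_le_pow_of_le_one (by norm_num) (by norm_num) (by omega)
    rw [pow_succ _ (j + 1)] at this
    linarith
  · have : (1 / 2 : ℝ) ^ (j + 1) ≤ (1 / 2 : ℝ) ^ (k + 1 + 1) :=
      pow_le_pow_of_le_one (by norm_num) (by norm_num) (by omega)
    rw [pow_succ _ (k + 1)] at this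
    linarith

/-- the sum of the first `N` test functions -/
noncomputable def Ph (N : ℕ) (p : E 2) : ℝ := ∑ k ∈ Finset.range N, ph k p

lemma contDiff_ph (k : ℕ) : ContDiff ℝ ∞ (ph k) := contDiff_phi _ _

lemma contDiff_Ph (N : ℕ) : ContDiff ℝ ∞ (Ph N) := ContDiff.sum fun k _ => contDiff_ph k

lemma Ph_abs (N : ℕ) (p : E 2) : |Ph N p| ≤ 37 := by
  by_cases h : ∃ k ∈ Finset.range N, ph k p ≠ 0
  · obtain ⟨k, hk, hne⟩ := h
    have : Ph N p = ph k p := by
      unfold Ph
      apply Finset.sum_eq_single_of_mem k hk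
      intro j _ hjk
      by_contra hj
      exact hjk (ph_disjoint hj hne)
    rw [this]
    have h0 : 0 ≤ ph k p := phi_nonneg p
    rw [abs_of_nonneg h0]
    exact phi_le (by positivity) p
  · push Not at h
    have : Ph N p = 0 := Finset.sum_eq_zero h
    rw [this]
    norm_num

lemma Ph_support (N : ℕ) : ∃ S : Set (E 2), IsClosed S ∧ S ⊆ Om ∧ ∀ p ∉ S, Ph N p = 0 := by
  refine ⟨⋃ k ∈ Finset.range N, Sk k, ?_, ?_, ?_⟩
  · exact isClosed_biUnion_finset fun k _ => isClosed_Sk k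
  · intro p hp
    simp only [mem_iUnion] at hp
    obtain ⟨k, -, hk⟩ := hp
    exact Sk_subset k hk
  · intro p hp
    apply Finset.sum_eq_zero
    intro k hk
    by_contra hne
    apply hp
    simp only [mem_iUnion]
    exact ⟨k, hk, (ph_ne_zero hne).2.2⟩

lemma pd_Ph (N : ℕ) (p : E 2) : pd 0 (Ph N) p = ∑ k ∈ Finset.range N, pd 0 (ph k) p := by
  unfold pd
  have : fderiv ℝ (Ph N) p = ∑ k ∈ Finset.range N, fderiv ℝ (ph k) p :=
    fderiv_fun_sum fun k _ => (contDiff_ph k).differentiable (by simp) p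
  rw [this]
  simp

lemma Ph_bound {σ : TensorMeasure 2} (h : Good σ (closure Om)) (N : ℕ) :
    (N : ℝ) ≤ σ.pair (PsiF (Ph N)) := by
  have e : σ.pair (PsiF (Ph N)) = ∑ k ∈ Finset.range N, ∫ p, pd 0 (ph k) p * σ.dens p 0 0 ∂σ.base := by
    rw [← integral_finsetSum _ fun k _ => h.integrable_mul (contDiff_pd (contDiff_ph k)).continuous 0 0]
    unfold TensorMeasure.pair
    apply integral_congr_ae
    filter_upwards [h.diag] with p hp
    simp only [Fin.sum_univ_two, hp.1, hp.2.1, PsiF]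
    simp only [Matrix.of_apply, Matrix.cons_val', Matrix.cons_val_zero, Matrix.cons_val_one,
      Matrix.cons_val_fin_one]
    rw [pd_Ph, Finset.sum_mul]
    ring
  rw [e]
  calc (N : ℝ) = ∑ k ∈ Finset.range N, (1 : ℝ) := by simp
    _ ≤ _ := Finset.sum_le_sum fun k _ => ph_bound h k

theorem not_representable {σ : TensorMeasure 2} (h : IsSolution Om fpos fneg σ) :
    ¬ IsRepresentable Om σ := by
  intro hrep
  obtain ⟨C, hC, hstar⟩ := star isOpen_Om bounded_Om hrep
  have hg := good_of_solution h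
  obtain ⟨N, hN⟩ := exists_nat_gt (C * 37)
  have h1 := hstar (Ph N) (contDiff_Ph N) (Ph_support N) 37 (Ph_abs N)
  have h2 := Ph_bound hg N
  have h3 := le_abs_self (σ.pair (PsiF (Ph N)))
  linarith

end Pool.Agent.H310.Beckmann
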