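import Pool.Agent.H310.Beckmann.Dom

open MeasureTheory Set Metric
open scoped ContDiff InnerProductSpace ENNReal NNReal

namespace Pool.Agent.H310.Beckmann

lemma lip_aff (c d : ℝ) (hc : |c| ≤ 1) : LipschitzWith 1 (fun s : ℝ => c * s + d) := by
  apply LipschitzWith.of_dist_le_mul
  intro x y
  rw [Real.dist_eq, Real.dist_eq]
  have : c * x + d - (c * y + d) = c * (x - y) := by ring
  rw [this, abs_mul]
  simp only [NNReal.coe_one]
  exact mul_le_mul_of_nonneg_right hc (abs_nonneg _)

lemma lip_G : LipschitzWith 1 (fun s : ℝ => -(1 / 2) * infDist s Tips) := by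
  apply LipschitzWith.of_dist_le_mul
  intro x y
  have h := (lipschitz_infDist_pt Tips).dist_le_mul x y
  rw [Real.dist_eq] at h ⊢
  have : -(1 / 2) * infDist x Tips - -(1 / 2) * infDist y Tips =
      -(1 / 2) * (infDist x Tips - infDist y Tips) := by ring
  rw [this, abs_mul]
  simp only [NNReal.coe_one, one_mul] at h ⊢
  have e : |(-(1 / 2) : ℝ)| = 1 / 2 := by rw [abs_neg, abs_of_pos]; norm_num
  rw [e]
  have := abs_nonneg (infDist x Tips - infDist y Tips)
  linarith

theorem hasLipschitzBoundary_Om : HasLipschitzBoundary Om := by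
  intro p hp
  rw [isOpen_Om.frontier_eq] at hp
  obtain ⟨hcl, -⟩ := hp
  obtain ⟨h1, h2, h3, h4, h5⟩ := closure_Om hcl
  by_cases hA : p 0 < 5 ∧ p 1 < 2
  · have hL : LipschitzWith (max 1 (max 1 1)) (fun s : ℝ => max (-(1 / 2) * infDist s Tips)
        (max (-1 * s + -4) (1 * s + -10))) :=
      lip_G.max ((lip_aff (-1) (-4) (by simp)).max (lip_aff 1 (-10) (by simp)))
    apply chart (a := 1) (b := 1) (by norm_num) (by norm_num) hL
    have e1 : ∀ᶠ q in nhds p, q 0 < 5 := (isOpen_lt cont0 continuous_const).mem_nhds hA.1
    have e2 : ∀ᶠ q in nhds p, q 1 < 2 := (isOpen_lt cont1 continuous_const).mem_nhds hA.2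
    filter_upwards [e1, e2] with q hq1 hq2
    rw [one_mul, one_mul, max_lt_iff, max_lt_iff]
    constructor
    · rintro ⟨a1, a2, a3, a4, a5⟩
      exact ⟨a5, by linarith, by linarith⟩
    · rintro ⟨a1, a2, a3⟩
      exact ⟨by linarith, hq1, by linarith, hq2, a1⟩
  · have hG : -(1 / 2) * infDist (p 0 - p 1) Tips < p 0 + p 1 := by
      have hnn := infDist_nonneg (x := p 0 - p 1) (s := Tips)
      by_contra hc
      push Not at hc
      -- then p0 + p1 = - infDist / 2
      have hneg : p 0 + p 1 ≤ 0 := by linarith
      have hpos : 0 < infDist (p 0 - p 1) Tips := by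
        have hh : (1:ℝ) ≤ infDist (p 0 - p 1) Tips := by
          rw [le_infDist tips_nonempty]
          rintro _ ⟨j, rfl⟩
          have hj1 : (1 / 2 : ℝ) ^ j ≤ 1 := pow_le_one₀ (by norm_num) (by norm_num)
          have hj0 : 0 < (1 / 2 : ℝ) ^ j := by positivity
          rw [Real.dist_eq]
          by_cases h0 : p 0 < 5
          · have hp1 : p 1 = 2 := by
              apply le_antisymm h4
              by_contra h'
              push Not at h'
              exact hA ⟨h0, h'⟩
            rw [abs_sub_comm]
            apply le_trans _ (le_abs_self _)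
            simp only
            linarith
          · have hp0 : p 0 = 5 := le_antisymm h2 (not_lt.1 h0)
            apply le_trans _ (le_abs_self _)
            simp only
            linarith
        linarith
      have hn : p 0 + p 1 < 0 := by linarith
      by_cases h0 : p 0 < 5
      · have hp1 : p 1 = 2 := by
          apply le_antisymm h4
          by_contra h'
          push Not at h'
          exact hA ⟨h0, h'⟩
        linarith
      · have hp0 : p 0 = 5 := le_antisymm h2 (not_lt.1 h0)
        linarith
    have eG : ∀ᶠ q in nhds p, -(1 / 2) * infDist (q 0 - q 1) Tips < q 0 + q 1 :=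
      (isOpen_lt contG (cont0.add cont1)).mem_nhds hG
    by_cases hB : -2 < p 0 ∧ -5 < p 1
    · have hL : LipschitzWith (max 1 1) (fun s : ℝ => max (-1 * s + -10) (1 * s + -4)) :=
        (lip_aff (-1) (-10) (by simp)).max (lip_aff 1 (-4) (by simp))
      apply chart (a := -1) (b := -1) (by norm_num) (by norm_num) hL
      have e1 : ∀ᶠ q in nhds p, -2 < q 0 := (isOpen_lt continuous_const cont0).mem_nhds hB.1
      have e2 : ∀ᶠ q in nhds p, -5 < q 1 := (isOpen_lt continuous_const cont1).mem_nhds hB.2
      filter_upwards [e1, e2, eG] with q hq1 hq2 hq3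
      rw [max_lt_iff]
      constructor
      · rintro ⟨a1, a2, a3, a4, a5⟩
        exact ⟨by linarith, by linarith⟩
      · rintro ⟨a1, a2⟩
        exact ⟨hq1, by linarith, hq2, by linarith, hq3⟩
    · by_cases hC : p 0 < 5 ∧ -5 < p 1
      · have hL : LipschitzWith (max 1 1) (fun s : ℝ => max (1 * s + -4) (-1 * s + -4)) :=
          (lip_aff 1 (-4) (by simp)).max (lip_aff (-1) (-4) (by simp))
        apply chart (a := 1) (b := -1) (by norm_num) (by norm_num) hL
        have e1 : ∀ᶠ q in nhds p, q 0 < 5 := (isOpen_lt cont0 continuous_const).mem_nhds hC.1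
        have e2 : ∀ᶠ q in nhds p, -5 < q 1 := (isOpen_lt continuous_const cont1).mem_nhds hC.2
        filter_upwards [e1, e2, eG] with q hq1 hq2 hq3
        rw [max_lt_iff]
        constructor
        · rintro ⟨a1, a2, a3, a4, a5⟩
          exact ⟨by linarith, by linarith⟩
        · rintro ⟨a1, a2⟩
          exact ⟨by linarith, hq1, hq2, by linarith, hq3⟩
      · have hD : -2 < p 0 ∧ p 1 < 2 := by
          rw [not_and_or, not_lt, not_lt] at hA hB hC
          rcases hC with hC | hC
          · refine ⟨by linarith, ?_⟩
            rcases hB with hB | hB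
            · linarith
            · linarith
          · refine ⟨?_, by linarith⟩
            rcases hA with hA | hA
            · linarith
            · linarith
        have hL : LipschitzWith (max 1 1) (fun s : ℝ => max (1 * s + -10) (-1 * s + -10)) :=
          (lip_aff 1 (-10) (by simp)).max (lip_aff (-1) (-10) (by simp))
        apply chart (a := -1) (b := 1) (by norm_num) (by norm_num) hL
        have e1 : ∀ᶠ q in nhds p, -2 < q 0 := (isOpen_lt continuous_const cont0).mem_nhds hD.1
        have e2 : ∀ᶠ q in nhds p, q 1 < 2 := (isOpen_lt cont1 continuous_const).mem_nhds hD.2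
        filter_upwards [e1, e2, eG] with q hq1 hq2 hq3
        rw [max_lt_iff]
        constructor
        · rintro ⟨a1, a2, a3, a4, a5⟩
          exact ⟨by linarith, by linarith⟩
        · rintro ⟨a1, a2⟩
          exact ⟨hq1, by linarith, by linarith, hq2, hq3⟩

end Pool.Agent.H310.Beckmann
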