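import Pool.Agent.H310.Beckmann.Defs

open MeasureTheory Set
open scoped ContDiff InnerProductSpace ENNReal NNReal

namespace Pool.Agent.H310.Beckmann

lemma nuc_two (S : Matrix (Fin 2) (Fin 2) ℝ) (h : S.IsSymm) :
    nuc S = √((S 0 0 + S 1 1) ^ 2 - 2 * (S 0 0 * S 1 1 - S 0 1 * S 1 0) +
      2 * |S 0 0 * S 1 1 - S 0 1 * S 1 0|) := by
  have hH : S.IsHermitian := by
    rw [Matrix.IsHermitian, Matrix.conjTranspose_eq_transpose_of_trivial]
    exact h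
  have h1 : nuc S = ∑ i, |hH.eigenvalues i| := by
    rw [nuc, dif_pos hH]
  have htr : S 0 0 + S 1 1 = hH.eigenvalues 0 + hH.eigenvalues 1 := by
    have := hH.trace_eq_sum_eigenvalues
    simpa [Matrix.trace_fin_two, Fin.sum_univ_two] using this
  have hdet : S 0 0 * S 1 1 - S 0 1 * S 1 0 = hH.eigenvalues 0 * hH.eigenvalues 1 := by
    have := hH.det_eq_prod_eigenvalues
    simpa [Matrix.det_fin_two, Fin.prod_univ_two] using this
  rw [h1, htr, hdet, Fin.sum_univ_two, abs_mul]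
  symm
  have e : (hH.eigenvalues 0 + hH.eigenvalues 1) ^ 2 - 2 * (hH.eigenvalues 0 * hH.eigenvalues 1) +
      2 * (|hH.eigenvalues 0| * |hH.eigenvalues 1|) =
      (|hH.eigenvalues 0| + |hH.eigenvalues 1|) ^ 2 := by
    have a := sq_abs (hH.eigenvalues 0)
    have b := sq_abs (hH.eigenvalues 1)
    nlinarith
  rw [e, Real.sqrt_sq (by positivity)]

lemma nuc_nonneg (S : Matrix (Fin 2) (Fin 2) ℝ) (h : S.IsSymm) : 0 ≤ nuc S := by
  rw [nuc_two S h]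
  exact Real.sqrt_nonneg _

lemma nuc_sq_ge (S : Matrix (Fin 2) (Fin 2) ℝ) (h : S.IsSymm) :
    (S 0 0 - S 1 1) ^ 2 + 4 * (S 0 1) ^ 2 ≤ (nuc S) ^ 2 ∧ (S 0 0 + S 1 1) ^ 2 ≤ (nuc S) ^ 2 := by
  have hs : S 1 0 = S 0 1 := h.apply 0 1
  have hnn : 0 ≤ (S 0 0 + S 1 1) ^ 2 - 2 * (S 0 0 * S 1 1 - S 0 1 * S 1 0) +
      2 * |S 0 0 * S 1 1 - S 0 1 * S 1 0| := by
    have := le_abs_self (S 0 0 * S 1 1 - S 0 1 * S 1 0)
    nlinarith [sq_nonneg (S 0 0 + S 1 1)]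
  rw [nuc_two S h, Real.sq_sqrt hnn, hs]
  constructor
  · have := neg_abs_le (S 0 0 * S 1 1 - S 0 1 * S 0 1)
    nlinarith
  · have := le_abs_self (S 0 0 * S 1 1 - S 0 1 * S 0 1)
    nlinarith

lemma sub_le_nuc (S : Matrix (Fin 2) (Fin 2) ℝ) (h : S.IsSymm) : S 0 0 - S 1 1 ≤ nuc S := by
  obtain ⟨h1, _⟩ := nuc_sq_ge S h
  have h0 := nuc_nonneg S h
  nlinarith [sq_nonneg (S 0 1), sq_nonneg (S 0 0 - S 1 1 + nuc S)]

lemma eq_case (S : Matrix (Fin 2) (Fin 2) ℝ) (h : S.IsSymm) (he : nuc S = S 0 0 - S 1 1) :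
    S 0 1 = 0 ∧ S 1 0 = 0 ∧ 0 ≤ S 0 0 ∧ S 1 1 ≤ 0 := by
  obtain ⟨h1, h2⟩ := nuc_sq_ge S h
  have h0 := nuc_nonneg S h
  have hs : S 1 0 = S 0 1 := h.apply 0 1
  rw [he] at h1 h2 h0
  have h01 : S 0 1 = 0 := by
    have : (S 0 1) ^ 2 ≤ 0 := by nlinarith
    nlinarith [sq_nonneg (S 0 1), pow_eq_zero_iff (two_ne_zero) |>.1 (le_antisymm this (sq_nonneg _))]
  have hprod : S 0 0 * S 1 1 ≤ 0 := by nlinarith
  refine ⟨h01, by rw [hs, h01], ?_, ?_⟩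
  · by_contra hneg
    push Not at hneg
    nlinarith
  · by_contra hneg
    push Not at hneg
    nlinarith

lemma nuc_diag (S : Matrix (Fin 2) (Fin 2) ℝ) (h : S.IsSymm) (h01 : S 0 1 = 0) (h0 : 0 ≤ S 0 0)
    (h1 : S 1 1 ≤ 0) : nuc S = S 0 0 - S 1 1 := by
  have hs : S 1 0 = S 0 1 := h.apply 0 1
  rw [nuc_two S h, hs, h01]
  have hp : S 0 0 * S 1 1 - 0 * 0 ≤ 0 := by nlinarith
  rw [abs_of_nonpos hp]
  have : (S 0 0 + S 1 1) ^ 2 - 2 * (S 0 0 * S 1 1 - 0 * 0) + 2 * -(S 0 0 * S 1 1 - 0 * 0) =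
      (S 0 0 - S 1 1) ^ 2 := by ring
  rw [this, Real.sqrt_sq (by linarith)]

lemma nuc_le (S : Matrix (Fin 2) (Fin 2) ℝ) (h : S.IsSymm) :
    nuc S ≤ 2 * (|S 0 0| + |S 1 1| + |S 0 1|) := by
  have hs : S 1 0 = S 0 1 := h.apply 0 1
  rw [nuc_two S h, hs]
  apply Real.sqrt_le_iff.2
  refine ⟨by positivity, ?_⟩
  have a0 := abs_nonneg (S 0 0)
  have a1 := abs_nonneg (S 1 1)
  have a2 := abs_nonneg (S 0 1)
  have b0 := sq_abs (S 0 0)
  have b1 := sq_abs (S 1 1)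
  have b2 := sq_abs (S 0 1)
  have c1 : |S 0 0 * S 1 1 - S 0 1 * S 0 1| ≤ |S 0 0| * |S 1 1| + |S 0 1| * |S 0 1| := by
    rw [← abs_mul, ← abs_mul]
    exact abs_sub _ _
  have c2 : |S 0 0 * S 1 1| = |S 0 0| * |S 1 1| := abs_mul _ _
  nlinarith [le_abs_self (S 0 0 * S 1 1), neg_abs_le (S 0 0 * S 1 1), mul_nonneg a0 a1,
    mul_nonneg a0 a2, mul_nonneg a1 a2, c2]

lemma TensorMeasure.aemeasurable_nuc (σ : TensorMeasure 2) :
    AEMeasurable (fun x => nuc (σ.dens x)) σ.base := by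
  have e : (fun x => nuc (σ.dens x)) = fun x =>
      √((σ.dens x 0 0 + σ.dens x 1 1) ^ 2 -
        2 * (σ.dens x 0 0 * σ.dens x 1 1 - σ.dens x 0 1 * σ.dens x 1 0) +
        2 * |σ.dens x 0 0 * σ.dens x 1 1 - σ.dens x 0 1 * σ.dens x 1 0|) := by
    funext x
    exact nuc_two _ (σ.symm x)
  have m : ∀ i j, AEMeasurable (fun x => σ.dens x i j) σ.base := fun i j =>
    (σ.integrable i j).aemeasurable
  rw [e]
  apply Real.continuous_sqrt.measurable.comp_aemeasurable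
  have hd : AEMeasurable (fun x => σ.dens x 0 0 * σ.dens x 1 1 - σ.dens x 0 1 * σ.dens x 1 0)
    σ.base := ((m 0 0).mul (m 1 1)).sub ((m 0 1).mul (m 1 0))
  exact ((((m 0 0).add (m 1 1)).pow_const 2).sub (hd.const_mul 2)).add
    ((continuous_abs.measurable.comp_aemeasurable hd).const_mul 2)

lemma TensorMeasure.integrable_nuc (σ : TensorMeasure 2) :
    Integrable (fun x => nuc (σ.dens x)) σ.base := by
  have hg : Integrable (fun x => 2 * (|σ.dens x 0 0| + |σ.dens x 1 1| + |σ.dens x 0 1|)) σ.base :=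
    ((((σ.integrable 0 0).abs).add ((σ.integrable 1 1).abs)).add ((σ.integrable 0 1).abs)).const_mul 2
  refine hg.mono' σ.aemeasurable_nuc.aestronglyMeasurable ?_
  refine Filter.Eventually.of_forall fun x => ?_
  rw [Real.norm_eq_abs, abs_of_nonneg (nuc_nonneg _ (σ.symm x))]
  exact nuc_le _ (σ.symm x)

lemma TensorMeasure.cost_eq (σ : TensorMeasure 2) :
    σ.cost = ENNReal.ofReal (∫ x, nuc (σ.dens x) ∂σ.base) := by
  rw [TensorMeasure.cost, ofReal_integral_eq_lintegral_ofReal σ.integrable_nuc]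
  exact Filter.Eventually.of_forall fun x => nuc_nonneg _ (σ.symm x)

end Pool.Agent.H310.Beckmann
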