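import Pool.Agent.H310.Beckmann.Sol

open MeasureTheory Set
open scoped ContDiff InnerProductSpace ENNReal NNReal

namespace Pool.Agent.H310.Beckmann

lemma Good.integrable_mul {σ : TensorMeasure 2} {K : Set (E 2)} (h : Good σ K) {φ : E 2 → ℝ}
    (hφ : Continuous φ) (i j : Fin 2) : Integrable (fun p => φ p * σ.dens p i j) σ.base := by
  obtain ⟨C, hC⟩ := (isCompact_closedBall (0 : E 2) 10).exists_bound_of_continuousOn
    hφ.continuousOn
  refine ((σ.integrable i j).abs.const_mul C).mono'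
    (hφ.aestronglyMeasurable.mul (σ.integrable i j).aestronglyMeasurable) ?_
  filter_upwards [h.supp] with p hp
  by_cases hk : p ∈ K
  · have hb := h.box p hk
    have : p ∈ Metric.closedBall (0 : E 2) 10 := by
      rw [mem_closedBall_zero_iff, EuclideanSpace.norm_eq]
      apply Real.sqrt_le_iff.2
      refine ⟨by norm_num, ?_⟩
      simp only [Fin.sum_univ_two, Real.norm_eq_abs, sq_abs]
      nlinarith
    rw [norm_mul]
    exact mul_le_mul_of_nonneg_right (hC p this) (norm_nonneg _)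
  · simp [hp hk]

lemma Good.prod {σ : TensorMeasure 2} {K : Set (E 2)} (h : Good σ K) {F G : ℝ → ℝ}
    (hF : ContDiff ℝ ∞ F) (hG : ContDiff ℝ ∞ G) :
    ∫ p, (deriv (deriv F) (p 0) * G (p 1) * σ.dens p 0 0 +
      F (p 0) * deriv (deriv G) (p 1) * σ.dens p 1 1) ∂σ.base =
      F (-1) * G 0 + F 4 * G (-3) - F 0 * G 1 - F 3 * G (-4) := by
  have hw := h.weak _ (contDiff_prodF hF hG)
  rw [TensorMeasure.pair] at hw
  simp only [prodF, pt_zero, pt_one] at hw
  rw [← hw]
  apply integral_congr_ae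
  filter_upwards [h.diag] with p hp
  obtain ⟨a1, a2, a3, a4⟩ := hess_prodF hF hG p
  simp only [Fin.sum_univ_two, a1, a2, a3, a4, hp.1, hp.2.1]
  ring

lemma prim_of_le {c x : ℝ} {p : ℝ → ℝ} (hp : ∀ s ≤ c, p s = 0) (hx : x ≤ c) : prim c p x = 0 := by
  rw [prim]
  have : ∫ s in c..x, p s = ∫ s in c..x, (0 : ℝ) := by
    apply intervalIntegral.integral_congr
    intro s hs
    rw [Set.uIcc_of_ge hx] at hs
    exact hp s hs.2
  rw [this]
  simp

lemma prim_nonneg {c x : ℝ} {p : ℝ → ℝ} (hp : ∀ s, c ≤ s → s ≤ x → 0 ≤ p s) (hx : c ≤ x) :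
    0 ≤ prim c p x := by
  rw [prim]
  apply intervalIntegral.integral_nonneg hx
  intro s hs
  exact hp s hs.1 hs.2

lemma prim_le {c x M : ℝ} {p : ℝ → ℝ} (hc : Continuous p) (hp : ∀ s, c ≤ s → s ≤ x → p s ≤ M)
    (hx : c ≤ x) : prim c p x ≤ M * (x - c) := by
  rw [prim]
  have : ∫ s in c..x, p s ≤ ∫ s in c..x, M := by
    apply intervalIntegral.integral_mono_on hx (hc.intervalIntegrable _ _)
      (continuous_const.intervalIntegrable _ _)
    intro s hs
    exact hp s hs.1 hs.2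
  refine this.trans ?_
  simp
  linarith [mul_comm M (x - c)]

lemma prim_pos {c x : ℝ} {p : ℝ → ℝ} (hc : Continuous p) (hp : ∀ s, c < s → 0 < p s) (hx : c < x) :
    0 < prim c p x := by
  rw [prim]
  apply intervalIntegral.intervalIntegral_pos_of_pos_on (hc.intervalIntegrable _ _) _ hx
  intro s hs
  exact hp s hs.1

lemma glue_le_one (x : ℝ) : expNegInvGlue x ≤ 1 := by
  rw [expNegInvGlue]
  split_ifs with h
  · norm_num
  · push Not at h
    rw [Real.exp_le_one_iff]
    have := inv_pos.2 h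
    linarith

/-- the convex test function in the second variable -/
noncomputable def Gf (c : ℝ) : ℝ → ℝ := prim c (prim c fun s => expNegInvGlue (s - c))

lemma glue_cont (c : ℝ) : ContDiff ℝ ∞ (fun s : ℝ => expNegInvGlue (s - c)) :=
  expNegInvGlue.contDiff.comp (contDiff_id.sub contDiff_const)

lemma contDiff_Gf (c : ℝ) : ContDiff ℝ ∞ (Gf c) := contDiff_prim (contDiff_prim (glue_cont c) c) c

lemma deriv2_Gf (c : ℝ) : deriv (deriv (Gf c)) = fun s => expNegInvGlue (s - c) := by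
  rw [Gf, deriv_prim (contDiff_prim (glue_cont c) c).continuous, deriv_prim (glue_cont c).continuous]

lemma Gf_of_le {c y : ℝ} (h : y ≤ c) : Gf c y = 0 :=
  prim_of_le (fun _ hs => prim_of_le (fun _ ht => expNegInvGlue.zero_of_nonpos (by linarith)) hs) h

lemma Gf_nonneg {c : ℝ} (y : ℝ) : 0 ≤ Gf c y := by
  rcases le_total y c with h | h
  · rw [Gf_of_le h]
  · exact prim_nonneg (fun s hs _ => prim_nonneg (fun t _ _ => expNegInvGlue.nonneg _) hs) h

lemma Gf_pos {c y : ℝ} (h : c < y) : 0 < Gf c y := by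
  apply prim_pos (contDiff_prim (glue_cont c) c).continuous _ h
  intro s hs
  apply prim_pos (glue_cont c).continuous _ hs
  intro t ht
  exact expNegInvGlue.pos_of_pos (by linarith)

lemma Gf_le {c y : ℝ} (h : c ≤ y) : Gf c y ≤ (y - c) * (y - c) := by
  apply prim_le (contDiff_prim (glue_cont c) c).continuous _ h
  intro s hs hsy
  have : prim c (fun s => expNegInvGlue (s - c)) s ≤ 1 * (s - c) :=
    prim_le (glue_cont c).continuous (fun t _ _ => glue_le_one _) hs
  linarith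

/-- the cut-off derivative profile -/
noncomputable def stf (t ε : ℝ) : ℝ → ℝ := fun x => 5 * Real.smoothTransition ((x - t + 2 * ε) / ε)

lemma contDiff_stf (t ε : ℝ) : ContDiff ℝ ∞ (stf t ε) := by
  unfold stf
  apply contDiff_const.mul
  apply Real.smoothTransition.contDiff.comp
  fun_prop

lemma stf_of_le {t ε x : ℝ} (hε : 0 < ε) (h : x ≤ t - 2 * ε) : stf t ε x = 0 := by
  unfold stf
  rw [Real.smoothTransition.zero_of_nonpos, mul_zero]
  apply div_nonpos_of_nonpos_of_nonneg _ hε.le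
  linarith

lemma stf_of_ge {t ε x : ℝ} (hε : 0 < ε) (h : t - ε ≤ x) : stf t ε x = 5 := by
  unfold stf
  rw [Real.smoothTransition.one_of_one_le, mul_one]
  rw [le_div_iff₀ hε]
  linarith

lemma stf_nonneg (t ε x : ℝ) : 0 ≤ stf t ε x := by
  unfold stf
  have := Real.smoothTransition.nonneg ((x - t + 2 * ε) / ε)
  positivity

lemma stf_le (t ε x : ℝ) : stf t ε x ≤ 5 := by
  unfold stf
  have := Real.smoothTransition.le_one ((x - t + 2 * ε) / ε)
  linarith

lemma stf_mono {t ε : ℝ} (hε : 0 < ε) : Monotone (stf t ε) := by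
  intro a b hab
  unfold stf
  apply mul_le_mul_of_nonneg_left _ (by norm_num)
  apply Real.smoothTransition.monotone
  apply div_le_div_of_nonneg_right _ hε.le
  linarith

lemma deriv_stf_nonneg {t ε : ℝ} (hε : 0 < ε) (x : ℝ) : 0 ≤ deriv (stf t ε) x :=
  (stf_mono hε).deriv_nonneg

lemma deriv_stf_of_ge {t ε x : ℝ} (hε : 0 < ε) (h : t ≤ x) : deriv (stf t ε) x = 0 := by
  have : stf t ε =ᶠ[nhds x] fun _ => 5 := by
    filter_upwards [lt_mem_nhds (show t - ε < x by linarith)] with y hy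
    exact stf_of_ge hε hy.le
  rw [this.deriv_eq]
  simp

section null

variable {σ : TensorMeasure 2} {K : Set (E 2)} {t ε c : ℝ}

/-- `P₂` : primitive of the right-hand weight -/
noncomputable def P2 (t : ℝ) : ℝ → ℝ := prim t fun s => expNegInvGlue (s - t)

lemma contDiff_P2 (t : ℝ) : ContDiff ℝ ∞ (P2 t) := contDiff_prim (glue_cont t) t

lemma P2_of_le {x : ℝ} (h : x ≤ t) : P2 t x = 0 :=
  prim_of_le (fun _ hs => expNegInvGlue.zero_of_nonpos (by linarith)) h

lemma P2_le {x : ℝ} (h : t ≤ x) : P2 t x ≤ x - t := by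
  have := prim_le (p := fun s => expNegInvGlue (s - t)) (M := 1) (glue_cont t).continuous
    (fun s _ _ => glue_le_one _) h
  rw [P2]
  linarith

/-- derivative of the first factor -/
noncomputable def f1 (t ε : ℝ) : ℝ → ℝ := fun x => stf t ε x - P2 t x

lemma contDiff_f1 (t ε : ℝ) : ContDiff ℝ ∞ (f1 t ε) := (contDiff_stf t ε).sub (contDiff_P2 t)

lemma f1_nonneg (hε : 0 < ε) (ht : 1 ≤ t) {x : ℝ} (hx : x ≤ 5) : 0 ≤ f1 t ε x := by
  unfold f1
  rcases le_total x t with h | h
  · rw [P2_of_le h, sub_zero]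
    exact stf_nonneg _ _ _
  · rw [stf_of_ge hε (by linarith)]
    have := P2_le h
    linarith

lemma f1_of_le (hε : 0 < ε) {x : ℝ} (hx : x ≤ t - 2 * ε) : f1 t ε x = 0 := by
  unfold f1
  rw [stf_of_le hε hx, P2_of_le (by linarith), sub_zero]

lemma deriv_f1 (x : ℝ) : deriv (f1 t ε) x = deriv (stf t ε) x - expNegInvGlue (x - t) := by
  unfold f1
  rw [deriv_fun_sub ((contDiff_stf t ε).differentiable (by simp) x)
    ((contDiff_P2 t).differentiable (by simp) x)]
  rw [P2, deriv_prim (glue_cont t).continuous]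

/-- first factor of the test function -/
noncomputable def Ff (t ε : ℝ) : ℝ → ℝ := prim (t - 2 * ε) (f1 t ε)

lemma contDiff_Ff (t ε : ℝ) : ContDiff ℝ ∞ (Ff t ε) := contDiff_prim (contDiff_f1 t ε) _

lemma deriv_Ff : deriv (Ff t ε) = f1 t ε := deriv_prim (contDiff_f1 t ε).continuous _

lemma Ff_of_le (hε : 0 < ε) {x : ℝ} (hx : x ≤ t - 2 * ε) : Ff t ε x = 0 :=
  prim_of_le (fun _ hs => f1_of_le hε hs) hx

lemma Ff_nonneg (hε : 0 < ε) (ht : 1 ≤ t) {x : ℝ} (hx : x ≤ 5) : 0 ≤ Ff t ε x := by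
  rcases le_total x (t - 2 * ε) with h | h
  · rw [Ff_of_le hε h]
  · exact prim_nonneg (fun s _ hs => f1_nonneg hε ht (hs.trans hx)) h

/-- second primitive of the left-hand weight -/
noncomputable def χ1 (t ε : ℝ) : ℝ → ℝ := prim (t - 2 * ε) (stf t ε)

lemma contDiff_χ1 (t ε : ℝ) : ContDiff ℝ ∞ (χ1 t ε) := contDiff_prim (contDiff_stf t ε) _

lemma χ1_of_le (hε : 0 < ε) {x : ℝ} (hx : x ≤ t - 2 * ε) : χ1 t ε x = 0 :=
  prim_of_le (fun _ hs => stf_of_le hε hs) hx

lemma χ1_four (hε : 0 < ε) (ht2 : t ≤ 2) : χ1 t ε 4 = χ1 t ε 3 + 5 := by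
  unfold χ1 prim
  rw [← intervalIntegral.integral_add_adjacent_intervals (b := 3)
    ((contDiff_stf t ε).continuous.intervalIntegrable _ _)
    ((contDiff_stf t ε).continuous.intervalIntegrable _ _)]
  congr 1
  have : ∫ s in (3:ℝ)..4, stf t ε s = ∫ s in (3:ℝ)..4, (5:ℝ) := by
    apply intervalIntegral.integral_congr
    intro s hs
    rw [Set.uIcc_of_le (by norm_num)] at hs
    exact stf_of_ge hε (by linarith [hs.1])
  rw [this]
  simp
  norm_num

lemma χ1_three (hε : 0 < ε) (ht2 : t ≤ 2) : χ1 t ε 3 ≤ 5 * (3 - (t - 2 * ε)) :=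
  prim_le (contDiff_stf t ε).continuous (fun s _ _ => stf_le _ _ _) (by linarith)

lemma mean_bound (h : Good σ K) (hε : 0 < ε) (hε4 : ε ≤ 1 / 4) (ht : 1 ≤ t) (ht2 : t ≤ 2) :
    ∫ p, deriv (stf t ε) (p 0) * (p 1 + t) * σ.dens p 0 0 ∂σ.base ≤ 10 * ε := by
  have hG : ContDiff ℝ ∞ (fun y : ℝ => y + t) := by fun_prop
  have key := h.prod (contDiff_χ1 t ε) hG
  have d2 : deriv (deriv fun y : ℝ => y + t) = fun _ => 0 := by
    have : (deriv fun y : ℝ => y + t) = fun _ => 1 := by
      funext y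
      simp
    rw [this]
    simp
  rw [χ1_of_le hε (show (-1:ℝ) ≤ t - 2 * ε by linarith),
    χ1_of_le hε (show (0:ℝ) ≤ t - 2 * ε by linarith), χ1_four hε ht2] at key
  have d1 : deriv (deriv (χ1 t ε)) = deriv (stf t ε) := by
    rw [χ1, deriv_prim (contDiff_stf t ε).continuous]
  simp only [d2, d1, mul_zero, zero_mul, add_zero] at key
  rw [key]
  have := χ1_three hε ht2
  nlinarith

lemma null_aux (h : Good σ K) (hq : ∀ p ∈ K, p 0 < t → -t ≤ p 1) (hε : 0 < ε) (hε4 : ε ≤ 1 / 4)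
    (ht : 1 ≤ t) (ht2 : t ≤ 2) (hc : -t ≤ c) :
    ∫ p, expNegInvGlue (p 0 - t) * Gf c (p 1) * σ.dens p 0 0 ∂σ.base ≤ 70 * ε := by
  have cG : Continuous fun p : E 2 => Gf c (p 1) :=
    (contDiff_Gf c).continuous.comp (contDiff_coord 1).continuous
  have cE : Continuous fun p : E 2 => expNegInvGlue (p 0 - t) :=
    (glue_cont t).continuous.comp (contDiff_coord 0).continuous
  have cS : Continuous fun p : E 2 => deriv (stf t ε) (p 0) :=
    (smooth_deriv (contDiff_stf t ε)).continuous.comp (contDiff_coord 0).continuous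
  have cF : Continuous fun p : E 2 => Ff t ε (p 0) :=
    (contDiff_Ff t ε).continuous.comp (contDiff_coord 0).continuous
  have cE' : Continuous fun p : E 2 => expNegInvGlue (p 1 - c) :=
    (glue_cont c).continuous.comp (contDiff_coord 1).continuous
  have cy : Continuous fun p : E 2 => p 1 + t :=
    (contDiff_coord 1).continuous.add continuous_const
  have I1 : Integrable (fun p : E 2 => expNegInvGlue (p 0 - t) * Gf c (p 1) * σ.dens p 0 0)
    σ.base := h.integrable_mul (cE.mul cG) 0 0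
  have I2 : Integrable (fun p : E 2 => deriv (stf t ε) (p 0) * Gf c (p 1) * σ.dens p 0 0)
    σ.base := h.integrable_mul (cS.mul cG) 0 0
  have I3 : Integrable (fun p : E 2 => Ff t ε (p 0) * expNegInvGlue (p 1 - c) * σ.dens p 1 1)
    σ.base := h.integrable_mul (cF.mul cE') 1 1
  have I4 : Integrable (fun p : E 2 => deriv (stf t ε) (p 0) * (p 1 + t) * σ.dens p 0 0)
    σ.base := h.integrable_mul (cS.mul cy) 0 0
  have key := h.prod (contDiff_Ff t ε) (contDiff_Gf c)
  rw [Ff_of_le hε (show (-1:ℝ) ≤ t - 2 * ε by linarith),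
    Ff_of_le hε (show (0:ℝ) ≤ t - 2 * ε by linarith),
    Gf_of_le (show (-3:ℝ) ≤ c by linarith), Gf_of_le (show (-4:ℝ) ≤ c by linarith)] at key
  have e : ∫ p, expNegInvGlue (p 0 - t) * Gf c (p 1) * σ.dens p 0 0 ∂σ.base =
      ∫ p, deriv (stf t ε) (p 0) * Gf c (p 1) * σ.dens p 0 0 ∂σ.base +
      ∫ p, Ff t ε (p 0) * expNegInvGlue (p 1 - c) * σ.dens p 1 1 ∂σ.base := by
    have e1 : ∫ p, (deriv (deriv (Ff t ε)) (p 0) * Gf c (p 1) * σ.dens p 0 0 +
        Ff t ε (p 0) * deriv (deriv (Gf c)) (p 1) * σ.dens p 1 1) ∂σ.base =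
        ∫ p, ((deriv (stf t ε) (p 0) * Gf c (p 1) * σ.dens p 0 0 +
        Ff t ε (p 0) * expNegInvGlue (p 1 - c) * σ.dens p 1 1) -
          expNegInvGlue (p 0 - t) * Gf c (p 1) * σ.dens p 0 0) ∂σ.base := by
      congr 1
      funext p
      rw [deriv_Ff, deriv_f1, deriv2_Gf]
      ring
    have e2 : ∫ p, ((deriv (stf t ε) (p 0) * Gf c (p 1) * σ.dens p 0 0 +
        Ff t ε (p 0) * expNegInvGlue (p 1 - c) * σ.dens p 1 1) -
          expNegInvGlue (p 0 - t) * Gf c (p 1) * σ.dens p 0 0) ∂σ.base =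
        ∫ p, (deriv (stf t ε) (p 0) * Gf c (p 1) * σ.dens p 0 0 +
        Ff t ε (p 0) * expNegInvGlue (p 1 - c) * σ.dens p 1 1) ∂σ.base -
        ∫ p, expNegInvGlue (p 0 - t) * Gf c (p 1) * σ.dens p 0 0 ∂σ.base :=
      integral_sub (I2.add I3) I1
    have e3 : ∫ p, (deriv (stf t ε) (p 0) * Gf c (p 1) * σ.dens p 0 0 +
        Ff t ε (p 0) * expNegInvGlue (p 1 - c) * σ.dens p 1 1) ∂σ.base =
        ∫ p, deriv (stf t ε) (p 0) * Gf c (p 1) * σ.dens p 0 0 ∂σ.base +
        ∫ p, Ff t ε (p 0) * expNegInvGlue (p 1 - c) * σ.dens p 1 1 ∂σ.base :=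
      integral_add I2 I3
    linarith
  have b2 : ∫ p, Ff t ε (p 0) * expNegInvGlue (p 1 - c) * σ.dens p 1 1 ∂σ.base ≤ 0 := by
    apply integral_nonpos_of_ae
    filter_upwards [h.diag, h.supp] with p hp hs
    by_cases hk : p ∈ K
    · have hb := h.box p hk
      have a1 := Ff_nonneg hε ht hb.2.1
      have a2 := expNegInvGlue.nonneg (p 1 - c)
      simp only [Pi.zero_apply]
      exact mul_nonpos_of_nonneg_of_nonpos (mul_nonneg a1 a2) hp.2.2.2
    · simp [hs hk]
  have b1 : ∫ p, deriv (stf t ε) (p 0) * Gf c (p 1) * σ.dens p 0 0 ∂σ.base ≤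
      ∫ p, 7 * (deriv (stf t ε) (p 0) * (p 1 + t) * σ.dens p 0 0) ∂σ.base := by
    apply integral_mono_ae I2 (I4.const_mul 7)
    filter_upwards [h.diag, h.supp] with p hp hs
    by_cases hk : p ∈ K
    · have hb := h.box p hk
      rcases le_or_gt t (p 0) with hx | hx
      · simp [deriv_stf_of_ge hε hx]
      · have hy := hq p hk hx
        have a1 := deriv_stf_nonneg (t := t) hε (p 0)
        have a3 := hp.2.2.1
        have a2 : Gf c (p 1) ≤ 7 * (p 1 + t) := by
          rcases le_total (p 1) c with hc' | hc'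
          · rw [Gf_of_le hc']
            linarith
          · have := Gf_le hc'
            nlinarith [hb.2.2.2]
        have := mul_le_mul_of_nonneg_right (mul_le_mul_of_nonneg_left a2 a1) a3
        calc _ ≤ _ := this
          _ = _ := by ring
    · simp [hs hk]
  rw [integral_const_mul] at b1
  have b3 := mean_bound h hε hε4 ht ht2
  rw [e]
  linarith

lemma null_region (h : Good σ K) (hq : ∀ p ∈ K, p 0 < t → -t ≤ p 1) (ht : 1 ≤ t) (ht2 : t ≤ 2) :
    ∀ᵐ p ∂σ.base, t < p 0 → -t < p 1 → σ.dens p 0 0 = 0 := by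
  have main : ∀ n : ℕ, ∀ᵐ p ∂σ.base, t < p 0 → -t + 1 / (n + 1 : ℝ) < p 1 → σ.dens p 0 0 = 0 := by
    intro n
    set c : ℝ := -t + 1 / (n + 1 : ℝ) with hcdef
    have hc : -t ≤ c := by
      have : 0 < 1 / (n + 1 : ℝ) := by positivity
      linarith
    have cG : Continuous fun p : E 2 => Gf c (p 1) :=
      (contDiff_Gf c).continuous.comp (contDiff_coord 1).continuous
    have cE : Continuous fun p : E 2 => expNegInvGlue (p 0 - t) :=
      (glue_cont t).continuous.comp (contDiff_coord 0).continuous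
    have I1 : Integrable (fun p : E 2 => expNegInvGlue (p 0 - t) * Gf c (p 1) * σ.dens p 0 0)
      σ.base := h.integrable_mul (cE.mul cG) 0 0
    have hnn : 0 ≤ᵐ[σ.base] fun p => expNegInvGlue (p 0 - t) * Gf c (p 1) * σ.dens p 0 0 := by
      filter_upwards [h.diag] with p hp
      exact mul_nonneg (mul_nonneg (expNegInvGlue.nonneg _) (Gf_nonneg _)) hp.2.2.1
    have hle : ∫ p, expNegInvGlue (p 0 - t) * Gf c (p 1) * σ.dens p 0 0 ∂σ.base ≤ 0 := by
      apply le_of_forall_pos_le_add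
      intro δ hδ
      have hmin : 0 < min (1 / 4 : ℝ) (δ / 70) := by positivity
      have := null_aux h hq hmin (min_le_left _ _) ht ht2 hc
      have h2 : min (1 / 4 : ℝ) (δ / 70) ≤ δ / 70 := min_le_right _ _
      linarith
    have hz : ∫ p, expNegInvGlue (p 0 - t) * Gf c (p 1) * σ.dens p 0 0 ∂σ.base = 0 :=
      le_antisymm hle (integral_nonneg_of_ae hnn)
    have := (integral_eq_zero_iff_of_nonneg_ae hnn I1).1 hz
    filter_upwards [this] with p hp hx hy
    simp only [Pi.zero_apply] at hp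
    have a1 := expNegInvGlue.pos_of_pos (show 0 < p 0 - t by linarith)
    have a2 := Gf_pos hy
    rcases mul_eq_zero.1 hp with h' | h'
    · exact absurd h' (mul_pos a1 a2).ne'
    · exact h'
  rw [← ae_all_iff] at main
  filter_upwards [main] with p hp hx hy
  obtain ⟨n, hn⟩ := exists_nat_one_div_lt (show 0 < p 1 + t by linarith)
  exact hp n hx (by linarith)

end null

end Pool.Agent.H310.Beckmann
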