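import Pool.Agent.H310.Beckmann.Weak
import Pool.Agent.H310.Beckmann.Nuc

open MeasureTheory Set
open scoped ContDiff InnerProductSpace ENNReal NNReal

namespace Pool.Agent.H310.Beckmann

/-- points of the plane -/
noncomputable def pt (a b : ℝ) : E 2 := !₂[a, b]

@[simp] lemma pt_zero (a b : ℝ) : pt a b 0 = a := by simp [pt]
@[simp] lemma pt_one (a b : ℝ) : pt a b 1 = b := by simp [pt]

/-- positive part of the load -/
noncomputable def fpos : Measure (E 2) := Measure.dirac (pt (-1) 0) + Measure.dirac (pt 4 (-3))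
/-- negative part of the load -/
noncomputable def fneg : Measure (E 2) := Measure.dirac (pt 0 1) + Measure.dirac (pt 3 (-4))

instance : IsFiniteMeasure fpos := by unfold fpos; infer_instance
instance : IsFiniteMeasure fneg := by unfold fneg; infer_instance

lemma integral_fpos (φ : E 2 → ℝ) : ∫ x, φ x ∂fpos = φ (pt (-1) 0) + φ (pt 4 (-3)) := by
  unfold fpos
  rw [integral_add_measure (integrable_dirac (by simp)) (integrable_dirac (by simp))]
  simp

lemma integral_fneg (φ : E 2 → ℝ) : ∫ x, φ x ∂fneg = φ (pt 0 1) + φ (pt 3 (-4)) := by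
  unfold fneg
  rw [integral_add_measure (integrable_dirac (by simp)) (integrable_dirac (by simp))]
  simp

/-- the basic properties of an admissible tensor measure with the optimal cost -/
structure Good (σ : TensorMeasure 2) (K : Set (E 2)) : Prop where
  box : ∀ p ∈ K, -2 ≤ p 0 ∧ p 0 ≤ 5 ∧ -5 ≤ p 1 ∧ p 1 ≤ 2
  supp : ∀ᵐ p ∂σ.base, p ∉ K → σ.dens p = 0
  weak : ∀ φ : E 2 → ℝ, ContDiff ℝ ∞ φ →
    σ.pair (hess φ) = φ (pt (-1) 0) + φ (pt 4 (-3)) - φ (pt 0 1) - φ (pt 3 (-4))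
  diag : ∀ᵐ p ∂σ.base, σ.dens p 0 1 = 0 ∧ σ.dens p 1 0 = 0 ∧ 0 ≤ σ.dens p 0 0 ∧ σ.dens p 1 1 ≤ 0

lemma weak4 {Ω : Set (E 2)} (hb : Bornology.IsBounded Ω) (hp : fpos (closure Ω)ᶜ = 0)
    (hm : fneg (closure Ω)ᶜ = 0) {σ : TensorMeasure 2} (h : IsAdmissible Ω fpos fneg σ)
    {φ : E 2 → ℝ} (hφ : ContDiff ℝ ∞ φ) :
    σ.pair (hess φ) = φ (pt (-1) 0) + φ (pt 4 (-3)) - φ (pt 0 1) - φ (pt 3 (-4)) := by
  rw [weak_eq hb hp hm h hφ, integral_fpos, integral_fneg]
  ring

lemma hess_add {f g : E 2 → ℝ} (hf : ContDiff ℝ ∞ f) (hg : ContDiff ℝ ∞ g) (p : E 2) (i j : Fin 2) :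
    hess (fun x => f x + g x) p i j = hess f p i j + hess g p i j := by
  simp only [hess, Matrix.of_apply]
  rw [pd_add (hf.differentiable (by simp)) (hg.differentiable (by simp)),
    pd_add ((contDiff_pd hf).differentiable (by simp)) ((contDiff_pd hg).differentiable (by simp))]

/-- the certificate `u = (x² - y²)/2` -/
noncomputable def cert (p : E 2) : ℝ :=
  prodF (fun x => x ^ 2 / 2) (fun _ => 1) p + prodF (fun _ => 1) (fun y => -y ^ 2 / 2) p

lemma contDiff_cert : ContDiff ℝ ∞ cert := by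
  apply ContDiff.add
  · exact contDiff_prodF (by fun_prop) (by fun_prop)
  · exact contDiff_prodF (by fun_prop) (by fun_prop)

lemma deriv_aux1 : deriv (deriv fun x : ℝ => x ^ 2 / 2) = fun _ => 1 := by
  have h1 : deriv (fun x : ℝ => x ^ 2 / 2) = fun x => x := by
    funext x
    have := ((hasDerivAt_pow 2 x).div_const 2).deriv
    simpa using this
  rw [h1]
  funext x
  simp

lemma deriv_aux2 : deriv (deriv fun x : ℝ => -x ^ 2 / 2) = fun _ => -1 := by
  have h1 : deriv (fun x : ℝ => -x ^ 2 / 2) = fun x => -x := by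
    funext x
    have := (((hasDerivAt_pow 2 x).neg).div_const 2).deriv
    simp at this ⊢
    linarith
  rw [h1]
  funext x
  simp

lemma pair_cert (σ : TensorMeasure 2) :
    σ.pair (hess cert) = ∫ p, (σ.dens p 0 0 - σ.dens p 1 1) ∂σ.base := by
  unfold TensorMeasure.pair
  congr 1
  funext p
  have h1 : ContDiff ℝ ∞ (fun x : ℝ => x ^ 2 / 2) := by fun_prop
  have h2 : ContDiff ℝ ∞ (fun _ : ℝ => (1 : ℝ)) := by fun_prop
  have h3 : ContDiff ℝ ∞ (fun x : ℝ => -x ^ 2 / 2) := by fun_prop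
  have H : ∀ i j, hess cert p i j = hess (prodF (fun x => x ^ 2 / 2) (fun _ => 1)) p i j +
      hess (prodF (fun _ => 1) (fun y => -y ^ 2 / 2)) p i j := fun i j =>
    hess_add (contDiff_prodF h1 h2) (contDiff_prodF h2 h3) p i j
  obtain ⟨a1, a2, a3, a4⟩ := hess_prodF h1 h2 p
  obtain ⟨b1, b2, b3, b4⟩ := hess_prodF h2 h3 p
  simp only [Fin.sum_univ_two, H, a1, a2, a3, a4, b1, b2, b3, b4, deriv_aux1, deriv_aux2]
  simp
  ring

lemma good_of {Ω : Set (E 2)} (hb : Bornology.IsBounded Ω) (hp : fpos (closure Ω)ᶜ = 0)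
    (hm : fneg (closure Ω)ᶜ = 0) {σ : TensorMeasure 2} (h : IsAdmissible Ω fpos fneg σ)
    (hbox : ∀ p ∈ closure Ω, -2 ≤ p 0 ∧ p 0 ≤ 5 ∧ -5 ≤ p 1 ∧ p 1 ≤ 2)
    (hc : σ.cost ≤ ENNReal.ofReal 8) : Good σ (closure Ω) := by
  refine ⟨hbox, h.1, fun φ hφ => weak4 hb hp hm h hφ, ?_⟩
  have h8 : ∫ p, (σ.dens p 0 0 - σ.dens p 1 1) ∂σ.base = 8 := by
    rw [← pair_cert, weak4 hb hp hm h contDiff_cert]
    simp [cert, prodF]
    norm_num
  rw [σ.cost_eq] at hc
  have hle : ∫ x, nuc (σ.dens x) ∂σ.base ≤ 8 := by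
    have := (ENNReal.ofReal_le_ofReal_iff (by norm_num : (0:ℝ) ≤ 8)).1 hc
    exact this
  have hint : Integrable (fun p => σ.dens p 0 0 - σ.dens p 1 1) σ.base :=
    (σ.integrable 0 0).sub (σ.integrable 1 1)
  have hz : ∫ p, (nuc (σ.dens p) - (σ.dens p 0 0 - σ.dens p 1 1)) ∂σ.base = 0 := by
    apply le_antisymm
    · rw [integral_sub σ.integrable_nuc hint, h8]
      linarith
    · apply integral_nonneg
      intro p
      exact sub_nonneg.2 (sub_le_nuc _ (σ.symm p))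
  have hae := (integral_eq_zero_iff_of_nonneg
    (fun p => sub_nonneg.2 (sub_le_nuc _ (σ.symm p))) (σ.integrable_nuc.sub hint)).1 hz
  filter_upwards [hae] with p hp
  have : nuc (σ.dens p) = σ.dens p 0 0 - σ.dens p 1 1 := by
    simp only [Pi.zero_apply] at hp
    linarith
  exact eq_case _ (σ.symm p) this

end Pool.Agent.H310.Beckmann
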