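import Pool.Agent.H310.Beckmann.Null

open MeasureTheory Set
open scoped ContDiff InnerProductSpace ENNReal NNReal

namespace Pool.Agent.H310.Beckmann

section test

variable {σ : TensorMeasure 2} {K : Set (E 2)} {l w : ℝ}

/-- rising profile on `[l + w/4, l + 3w/4]` -/
noncomputable def A0 (l w : ℝ) : ℝ → ℝ := fun x => Real.smoothTransition (2 * (x - l) / w - 1 / 2)

lemma contDiff_A0 (l w : ℝ) : ContDiff ℝ ∞ (A0 l w) := by
  unfold A0
  apply Real.smoothTransition.contDiff.comp
  fun_prop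

lemma A0_of_le (hw : 0 < w) {x : ℝ} (h : x ≤ l + w / 4) : A0 l w x = 0 := by
  unfold A0
  apply Real.smoothTransition.zero_of_nonpos
  have : 2 * (x - l) / w ≤ 1 / 2 := by
    rw [div_le_iff₀ hw]
    linarith
  linarith

lemma A0_of_ge (hw : 0 < w) {x : ℝ} (h : l + 3 * w / 4 ≤ x) : A0 l w x = 1 := by
  unfold A0
  apply Real.smoothTransition.one_of_one_le
  have : 3 / 2 ≤ 2 * (x - l) / w := by
    rw [le_div_iff₀ hw]
    linarith
  linarith

lemma A0_nonneg (x : ℝ) : 0 ≤ A0 l w x := Real.smoothTransition.nonneg _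

lemma A0_le_one (x : ℝ) : A0 l w x ≤ 1 := Real.smoothTransition.le_one _

lemma A0_mono (hw : 0 < w) : Monotone (A0 l w) := by
  intro a b hab
  unfold A0
  apply Real.smoothTransition.monotone
  have : 2 * (a - l) / w ≤ 2 * (b - l) / w := by
    apply div_le_div_of_nonneg_right _ hw.le
    linarith
  linarith

lemma dA0_nonneg (hw : 0 < w) (x : ℝ) : 0 ≤ deriv (A0 l w) x := (A0_mono hw).deriv_nonneg

lemma dA0_of_lt (hw : 0 < w) {x : ℝ} (h : x < l + w / 4) : deriv (A0 l w) x = 0 := by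
  have : A0 l w =ᶠ[nhds x] fun _ => 0 := by
    filter_upwards [gt_mem_nhds h] with y hy
    exact A0_of_le hw hy.le
  rw [this.deriv_eq]
  simp

lemma dA0_of_gt (hw : 0 < w) {x : ℝ} (h : l + 3 * w / 4 < x) : deriv (A0 l w) x = 0 := by
  have : A0 l w =ᶠ[nhds x] fun _ => 1 := by
    filter_upwards [lt_mem_nhds h] with y hy
    exact A0_of_ge hw hy.le
  rw [this.deriv_eq]
  simp

/-- primitive of `A0` -/
noncomputable def chi (l w : ℝ) : ℝ → ℝ := prim 0 (A0 l w)

lemma contDiff_chi (l w : ℝ) : ContDiff ℝ ∞ (chi l w) := contDiff_prim (contDiff_A0 l w) 0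

lemma deriv_chi : deriv (chi l w) = A0 l w := deriv_prim (contDiff_A0 l w).continuous 0

lemma chi_of_le (hw : 0 < w) (hl : 0 ≤ l) {x : ℝ} (h : x ≤ 0) : chi l w x = 0 := by
  apply prim_of_le _ h
  intro s hs
  exact A0_of_le hw (by linarith)

lemma chi_eq (hw : 0 < w) (h3 : l + 3 * w / 4 ≤ 3) {x : ℝ} (hx : 3 ≤ x) :
    chi l w x = chi l w 3 + (x - 3) := by
  unfold chi prim
  rw [← intervalIntegral.integral_add_adjacent_intervals (b := 3)
    ((contDiff_A0 l w).continuous.intervalIntegrable _ _)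
    ((contDiff_A0 l w).continuous.intervalIntegrable _ _)]
  congr 1
  have : ∫ s in (3:ℝ)..x, A0 l w s = ∫ s in (3:ℝ)..x, (1:ℝ) := by
    apply intervalIntegral.integral_congr
    intro s hs
    rw [Set.uIcc_of_le hx] at hs
    exact A0_of_ge hw (by linarith [hs.1])
  rw [this]
  simp

/-- `ζ' = x A0 - χ` -/
noncomputable def zeta' (l w : ℝ) : ℝ → ℝ := fun x => x * A0 l w x - chi l w x

lemma contDiff_zeta' (l w : ℝ) : ContDiff ℝ ∞ (zeta' l w) :=
  (contDiff_id.mul (contDiff_A0 l w)).sub (contDiff_chi l w)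

lemma deriv_zeta' (x : ℝ) : deriv (zeta' l w) x = x * deriv (A0 l w) x := by
  unfold zeta'
  have hA : DifferentiableAt ℝ (A0 l w) x := (contDiff_A0 l w).differentiable (by simp) x
  have hc : DifferentiableAt ℝ (chi l w) x := (contDiff_chi l w).differentiable (by simp) x
  have h1 : HasDerivAt (fun x => x * A0 l w x - chi l w x)
      (1 * A0 l w x + x * deriv (A0 l w) x - deriv (chi l w) x) x :=
    ((hasDerivAt_id x).mul hA.hasDerivAt).sub hc.hasDerivAt
  rw [h1.deriv, deriv_chi]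
  ring

/-- `ζ` -/
noncomputable def zeta (l w : ℝ) : ℝ → ℝ := prim 0 (zeta' l w)

lemma contDiff_zeta (l w : ℝ) : ContDiff ℝ ∞ (zeta l w) := contDiff_prim (contDiff_zeta' l w) 0

lemma deriv_zeta : deriv (zeta l w) = zeta' l w := deriv_prim (contDiff_zeta' l w).continuous 0

lemma zeta_of_le (hw : 0 < w) (hl : 0 ≤ l) {x : ℝ} (h : x ≤ 0) : zeta l w x = 0 := by
  apply prim_of_le _ h
  intro s hs
  rw [zeta', chi_of_le hw hl hs, A0_of_le hw (by linarith)]
  ring

lemma zeta_four (hw : 0 < w) (h3 : l + 3 * w / 4 ≤ 3) :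
    zeta l w 4 = zeta l w 3 + (3 - chi l w 3) := by
  unfold zeta
  have e : prim 0 (zeta' l w) 4 = prim 0 (zeta' l w) 3 + ∫ s in (3:ℝ)..4, zeta' l w s := by
    unfold prim
    rw [intervalIntegral.integral_add_adjacent_intervals
    ((contDiff_zeta' l w).continuous.intervalIntegrable _ _)
    ((contDiff_zeta' l w).continuous.intervalIntegrable _ _)]
  rw [e]
  congr 1
  have : ∫ s in (3:ℝ)..4, zeta' l w s = ∫ s in (3:ℝ)..4, (3 - chi l w 3) := by
    apply intervalIntegral.integral_congr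
    intro s hs
    rw [Set.uIcc_of_le (by norm_num)] at hs
    simp only [zeta']
    rw [chi_eq hw h3 hs.1, A0_of_ge hw (by linarith [hs.1])]
    ring
  rw [this]
  simp
  norm_num

/-- first moment identity on the square -/
lemma moment (h : Good σ K) (hw : 0 < w) (hl : 0 ≤ l) (h3 : l + 3 * w / 4 ≤ 3) :
    ∫ p, deriv (A0 l w) (p 0) * (1 + 20 * ((p 0 + p 1) / w)) * σ.dens p 0 0 ∂σ.base = 1 := by
  have hG : ContDiff ℝ ∞ (fun y : ℝ => 1 + 20 / w * y) := by fun_prop
  have h1 : ContDiff ℝ ∞ (fun _ : ℝ => 20 / w) := by fun_prop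
  have key1 := h.prod (contDiff_chi l w) hG
  have key2 := h.prod (contDiff_zeta l w) h1
  have d1 : deriv (deriv fun y : ℝ => 1 + 20 / w * y) = fun _ => 0 := by
    have : (deriv fun y : ℝ => 1 + 20 / w * y) = fun _ => 20 / w := by
      funext y
      have := ((hasDerivAt_id y).const_mul (20 / w)).const_add 1
      simpa using this.deriv
    rw [this]
    simp
  have d2 : deriv (deriv fun _ : ℝ => 20 / w) = fun _ => 0 := by simp
  have d3 : deriv (deriv (chi l w)) = deriv (A0 l w) := by rw [deriv_chi]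
  have d4 : deriv (deriv (zeta l w)) = fun x => x * deriv (A0 l w) x := by
    rw [deriv_zeta]
    funext x
    exact deriv_zeta' x
  rw [chi_of_le hw hl (show (-1:ℝ) ≤ 0 by norm_num), chi_of_le hw hl le_rfl,
    chi_eq hw h3 (show (3:ℝ) ≤ 4 by norm_num)] at key1
  rw [zeta_of_le hw hl (show (-1:ℝ) ≤ 0 by norm_num), zeta_of_le hw hl le_rfl,
    zeta_four hw h3] at key2
  simp only [d1, d3, mul_zero, zero_mul, add_zero] at key1
  simp only [d2, d4, mul_zero, zero_mul, add_zero] at key2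
  have cA : Continuous fun p : E 2 => deriv (A0 l w) (p 0) :=
    (smooth_deriv (contDiff_A0 l w)).continuous.comp (contDiff_coord 0).continuous
  have c0 : Continuous fun p : E 2 => p 0 := (contDiff_coord 0).continuous
  have c1 : Continuous fun p : E 2 => p 1 := (contDiff_coord 1).continuous
  have I1 : Integrable (fun p : E 2 => deriv (A0 l w) (p 0) * (1 + 20 / w * p 1) * σ.dens p 0 0)
    σ.base := h.integrable_mul (cA.mul (continuous_const.add (c1.const_mul _))) 0 0
  have I2 : Integrable (fun p : E 2 => p 0 * deriv (A0 l w) (p 0) * (20 / w) * σ.dens p 0 0)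
    σ.base := h.integrable_mul ((c0.mul cA).mul continuous_const) 0 0
  have e : ∫ p, deriv (A0 l w) (p 0) * (1 + 20 * ((p 0 + p 1) / w)) * σ.dens p 0 0 ∂σ.base =
      ∫ p, (deriv (A0 l w) (p 0) * (1 + 20 / w * p 1) * σ.dens p 0 0 +
        p 0 * deriv (A0 l w) (p 0) * (20 / w) * σ.dens p 0 0) ∂σ.base := by
    congr 1
    funext p
    field_simp
    ring
  rw [e]
  have e2 : ∫ p, (deriv (A0 l w) (p 0) * (1 + 20 / w * p 1) * σ.dens p 0 0 +
        p 0 * deriv (A0 l w) (p 0) * (20 / w) * σ.dens p 0 0) ∂σ.base =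
        ∫ p, deriv (A0 l w) (p 0) * (1 + 20 / w * p 1) * σ.dens p 0 0 ∂σ.base +
        ∫ p, p 0 * deriv (A0 l w) (p 0) * (20 / w) * σ.dens p 0 0 ∂σ.base := integral_add I1 I2
  rw [e2, key1, key2]
  field_simp
  ring

end test

end Pool.Agent.H310.Beckmann
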