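import Pool.Agent.H310.Beckmann.Calc

open MeasureTheory Set
open scoped ContDiff InnerProductSpace ENNReal NNReal

namespace Pool.Agent.H310.Beckmann

lemma weak_eq {Ω : Set (E 2)} (hb : Bornology.IsBounded Ω) {fp fm : Measure (E 2)}
    (hp : fp (closure Ω)ᶜ = 0) (hm : fm (closure Ω)ᶜ = 0) {σ : TensorMeasure 2}
    (h : IsAdmissible Ω fp fm σ) {φ : E 2 → ℝ} (hφ : ContDiff ℝ ∞ φ) :
    σ.pair (hess φ) = ∫ x, φ x ∂fp - ∫ x, φ x ∂fm := by
  obtain ⟨R, hR⟩ := (hb.closure).subset_ball (0 : E 2)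
  have hR' : closure Ω ⊆ Metric.ball (0 : E 2) (max R 1) :=
    hR.trans (Metric.ball_subset_ball (le_max_left _ _))
  set R' := max R 1 with hR'def
  have hRpos : 0 < R' := lt_of_lt_of_le one_pos (le_max_right _ _)
  let χ : ContDiffBump (0 : E 2) := ⟨R', R' + 1, hRpos, by linarith⟩
  have hχ1 : ∀ x ∈ Metric.ball (0 : E 2) R', (fun y => χ y * φ y) =ᶠ[nhds x] φ := by
    intro x hx
    filter_upwards [Metric.isOpen_ball.mem_nhds hx] with y hy
    have : χ y = 1 := χ.one_of_mem_closedBall (Metric.ball_subset_closedBall hy)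
    simp [this]
  have hsm : ContDiff ℝ ∞ (fun y => χ y * φ y) := χ.contDiff.mul hφ
  have hcs : HasCompactSupport (fun y => χ y * φ y) := χ.hasCompactSupport.mul_right
  have key := h.2 _ hsm hcs
  have e1 : σ.pair (hess fun y => χ y * φ y) = σ.pair (hess φ) := by
    unfold TensorMeasure.pair
    apply integral_congr_ae
    filter_upwards [h.1] with x hx
    by_cases hxo : x ∈ closure Ω
    · rw [hess_congr (hχ1 x (hR' hxo))]
    · simp [hx hxo]
  have e2 : ∀ (m : Measure (E 2)), m (closure Ω)ᶜ = 0 → ∫ x, χ x * φ x ∂m = ∫ x, φ x ∂m := by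
    intro m hm
    apply integral_congr_ae
    have : ∀ᵐ x ∂m, x ∈ closure Ω := by
      rw [ae_iff]
      exact hm
    filter_upwards [this] with x hx
    exact (hχ1 x (hR' hx)).eq_of_nhds
  rw [← e1, key, e2 fp hp, e2 fm hm]

end Pool.Agent.H310.Beckmann
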